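import Mathlib

/-!
Elementary operations on pairs of generators of the conductor ideal.
-/

set_option autoImplicit false

namespace Pool.Agent.H798Z.CI

open Polynomial

theorem stable_range (a b h p q : ℂ[X]) (hh : h ≠ 0) (H : h ∣ p * a + q * b - 1) :
    ∃ m : ℂ[X], IsCoprime (a + m * b) h := by
  classical
  obtain ⟨m, hm⟩ := Infinite.exists_notMem_finset
    (h.roots.toFinset.image fun r => -a.eval r / b.eval r)
  refine ⟨C m, (isCoprime_iff_aeval_ne_zero_of_isAlgClosed ℂ ℂ _ _).2 fun r => ?_⟩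
  by_contra hcon
  push Not at hcon
  obtain ⟨h1, h2⟩ := hcon
  simp only [coe_aeval_eq_eval, eval_add, eval_mul, eval_C] at h1 h2
  obtain ⟨k, hk⟩ := H
  have h3 := congrArg (eval r) hk
  simp only [eval_add, eval_mul, eval_sub, eval_one, h2, zero_mul] at h3
  by_cases hb : b.eval r = 0
  · rw [hb, mul_zero, add_zero] at h1
    rw [h1, hb] at h3
    simp at h3
  · apply hm
    refine Finset.mem_image.2 ⟨r, by simp [hh, h2], ?_⟩
    field_simp
    linear_combination -h1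

theorem euclid_moves (Q : ℂ[X] → ℂ[X] → Prop) (op : ∀ a b m, Q a b → Q (a + m * b) b)
    (op' : ∀ a b m, Q a b → Q a (b + m * a)) (a b : ℂ[X]) (hab : IsCoprime a b) :
    Q a b ↔ Q 1 0 := by
  have e1 : ∀ a b m, Q (a + m * b) b ↔ Q a b := fun a b m =>
    ⟨fun h => by simpa using op _ _ (-m) h, op a b m⟩
  have e2 : ∀ a b m, Q a (b + m * a) ↔ Q a b := fun a b m =>
    ⟨fun h => by simpa using op' _ _ (-m) h, op' a b m⟩
  have key : ∀ a b : ℂ[X], IsCoprime a b → (Q a b ↔ Q 1 0) ∧ (Q b a ↔ Q 1 0) := by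
    intro a b
    induction a, b using EuclideanDomain.GCD.induction with
    | H0 x =>
      intro h
      obtain ⟨u, hu⟩ := (isCoprime_zero_left.1 h).exists_left_inv
      constructor
      · rw [← e1 0 x u, zero_add, hu, ← e2 1 x (-x)]; simp
      · rw [← e2 x 0 u, zero_add, hu, ← e1 x 1 (1 - x), show x + (1 - x) * 1 = 1 by ring,
          ← e2 1 1 (-1)]; simp
    | H1 a b _ ih =>
      intro h
      have hb : b % a + b / a * a = b := by
        rw [mul_comm]; exact EuclideanDomain.mod_add_div b a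
      have h' : IsCoprime (b % a) a := by
        rw [← hb] at h
        exact (IsCoprime.of_add_mul_right_right h).symm
      obtain ⟨i1, i2⟩ := ih h'
      constructor
      · rw [← i2, ← e2 a (b % a) (b / a), hb]
      · rw [← i1, ← e1 (b % a) a (b / a), hb]
  exact (key a b hab).1

theorem elem_main {B : Type} [CommRing B] (dy : Derivation ℤ B B) (σ : ℂ[X] →+* B) (y : B)
    (g h0 : ℂ[X]) (ev0 evg : B →+* ℂ[X]) (h1 : ∀ p, ev0 (σ p) = p) (h2 : ∀ p, evg (σ p) = p)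
    (h3 : ev0 y = 0) (h4 : evg y = g) (h5 : ∀ x, y ∣ x - σ (ev0 x))
    (h6 : ∀ x, y - σ g ∣ x - σ (evg x)) (h7 : ∀ p, dy (σ p) = 0) (h8 : dy y = 1)
    (c : Ideal B) (hw : y - σ g ∈ c) (hh0 : σ h0 ∈ c) (hne : h0 ≠ 0) (hcop : IsCoprime h0 g)
    (P : B → B → Prop) (op : ∀ a b m, P a b → P (a + m * b) b) (sw : ∀ a b, P a b → P b a)
    (ad : ∀ a b n, n ∈ c * c → P a b → P (a + y * n) b)
    (gen : ∀ a b, P a b → a ∈ c ∧ b ∈ c ∧ ∀ x ∈ c, ∃ p q, ∃ n ∈ c * c, x = p * a + q * b + y * n)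
    (a0 b0 : B) (hP : P a0 b0) : ∃ a b, P a b ∧ ∀ x ∈ c, ∃ p q, x = p * a + q * b := by
  have hsurj : Function.Surjective evg := fun p => ⟨σ p, h2 p⟩
  obtain ⟨h, hh⟩ := (IsPrincipalIdealRing.principal (c.map evg)).principal
  have hdvd : ∀ x ∈ c, h ∣ evg x := fun x hx => by
    have := Ideal.mem_map_of_mem evg hx
    rw [hh] at this
    exact Ideal.mem_span_singleton.1 this
  set w := y - σ g with hwdef
  have hH : σ h ∈ c := by
    have : h ∈ c.map evg := by rw [hh]; exact Ideal.mem_span_singleton_self h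
    obtain ⟨x, hx, hxh⟩ := (Ideal.mem_map_iff_of_surjective evg hsurj).1 this
    obtain ⟨k, hk⟩ := h6 x
    have : σ h = x - w * k := by rw [← hxh, ← hk]; ring
    rw [this]
    exact c.sub_mem hx (c.mul_mem_right _ hw)
  have hh0' : h ∣ h0 := by simpa [h2] using hdvd _ hh0
  have hhne : h ≠ 0 := by rintro rfl; exact hne (zero_dvd_iff.1 hh0')
  have hcop' : IsCoprime h g := hcop.of_isCoprime_of_dvd_left hh0'
  have evw : evg w = 0 := by simp [hwdef, h2, h4]
  have dyw : dy w = 1 := by simp [hwdef, h7, h8]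
  have mm : ∀ {a b : B}, a ∈ c → b ∈ c → a * b ∈ c * c := fun ha hb => Ideal.mul_mem_mul ha hb
  have dec : ∀ x ∈ c, ∃ a1 a2 : ℂ[X], x - (σ a1 * σ h + σ a2 * w) ∈ c * c := by
    intro x hx
    obtain ⟨a1, ha1⟩ := hdvd x hx
    obtain ⟨k, hk⟩ := h6 x
    obtain ⟨k', hk'⟩ := h6 k
    refine ⟨a1, evg k, ?_⟩
    have : x - (σ a1 * σ h + σ (evg k) * w) = w * (w * k') := by
      rw [ha1, map_mul] at hk
      linear_combination hk + w * hk'
    rw [this]
    exact mm hw (c.mul_mem_right _ hw)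
  have f1 : ∀ x ∈ c * c, h * h ∣ evg x := by
    intro x hx
    refine Submodule.mul_induction_on hx (fun a ha b hb => ?_) fun a b ha hb => ?_
    · rw [map_mul]; exact mul_dvd_mul (hdvd a ha) (hdvd b hb)
    · rw [map_add]; exact dvd_add ha hb
  have f2 : ∀ x ∈ c * c, h ∣ evg (dy x) := by
    intro x hx
    refine Submodule.mul_induction_on hx (fun a ha b hb => ?_) fun a b ha hb => ?_
    · rw [dy.leibniz, smul_eq_mul, smul_eq_mul, map_add, map_mul, map_mul]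
      exact dvd_add ((hdvd a ha).mul_right _) ((hdvd b hb).mul_right _)
    · rw [map_add, map_add]; exact dvd_add ha hb
  let Q : ℂ[X] → ℂ[X] → ℂ[X] → ℂ[X] → Prop := fun a11 a12 a21 a22 => ∃ a b, P a b ∧
    a - (σ a11 * σ h + σ a12 * w) ∈ c * c ∧ b - (σ a21 * σ h + σ a22 * w) ∈ c * c
  have Qsw : ∀ {a11 a12 a21 a22}, Q a11 a12 a21 a22 → Q a21 a22 a11 a12 :=
    fun ⟨a, b, i1, i2, i3⟩ => ⟨b, a, sw _ _ i1, i3, i2⟩
  have Qop : ∀ {a11 a12 a21 a22} (m b11 b12), Q a11 a12 a21 a22 → h ∣ a11 + m * a21 - b11 →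
      h ∣ a12 + m * a22 - b12 → Q b11 b12 a21 a22 := by
    rintro a11 a12 a21 a22 m b11 b12 ⟨a, b, i1, i2, i3⟩ ⟨k, hk⟩ ⟨l, hl⟩
    refine ⟨a + σ m * b, b, op _ _ _ i1, ?_, i3⟩
    have hk' := congrArg σ hk
    have hl' := congrArg σ hl
    simp only [map_add, map_sub, map_mul] at hk' hl'
    have : a + σ m * b - (σ b11 * σ h + σ b12 * w) = (a - (σ a11 * σ h + σ a12 * w)) +
        σ m * (b - (σ a21 * σ h + σ a22 * w)) + σ h * (σ h * σ k + w * σ l) := by
      linear_combination σ h * hk' + w * hl'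
    rw [this]
    exact Ideal.add_mem _ (Ideal.add_mem _ i2 (Ideal.mul_mem_left _ _ i3))
      (mm hH (c.add_mem (c.mul_mem_right _ hH) (c.mul_mem_right _ hw)))
  have Qgen : ∀ {a11 a12 a21 a22}, Q a11 a12 a21 a22 → ∀ x ∈ c, ∃ p q,
      x - (p * (σ a11 * σ h + σ a12 * w) + q * (σ a21 * σ h + σ a22 * w)) ∈ c * c := by
    rintro a11 a12 a21 a22 ⟨a, b, i1, i2, i3⟩ x hx
    obtain ⟨p, q, n, hn, rfl⟩ := (gen a b i1).2.2 x hx
    refine ⟨p, q, ?_⟩
    have : p * a + q * b + y * n - (p * (σ a11 * σ h + σ a12 * w) + q * (σ a21 * σ h + σ a22 * w))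
        = p * (a - (σ a11 * σ h + σ a12 * w)) + q * (b - (σ a21 * σ h + σ a22 * w)) + y * n := by
      ring
    rw [this]
    exact Ideal.add_mem _ (Ideal.add_mem _ (Ideal.mul_mem_left _ _ i2) (Ideal.mul_mem_left _ _ i3))
      (Ideal.mul_mem_left _ _ hn)
  have Qgen1 : ∀ {a11 a12 a21 a22}, Q a11 a12 a21 a22 → ∃ p q, h ∣ p * a11 + q * a21 - 1 := by
    intro a11 a12 a21 a22 hQ
    obtain ⟨p, q, hpq⟩ := Qgen hQ _ hH
    obtain ⟨k, hk⟩ := f1 _ hpq
    simp only [map_add, map_sub, map_mul, h2, evw] at hk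
    refine ⟨evg p, evg q, -k, mul_left_cancel₀ hhne ?_⟩
    linear_combination -hk
  have Qgen2 : ∀ {a12 a22}, Q 0 a12 1 a22 → ∃ p, h ∣ p * a12 - 1 := by
    intro a12 a22 hQ
    obtain ⟨p, q, hpq⟩ := Qgen hQ _ hw
    obtain ⟨k, hk⟩ := f1 _ hpq
    obtain ⟨l, hl⟩ := f2 _ hpq
    simp only [map_add, map_sub, map_mul, h2, evw, map_zero, map_one] at hk
    simp only [map_add, map_sub, map_mul, h2, evw, map_zero, map_one, Derivation.leibniz,
      smul_eq_mul, h7, dyw, zero_mul, one_mul, mul_zero, mul_one, zero_add, add_zero] at hl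
    have hq : evg q = -(h * k) := by
      apply mul_left_cancel₀ hhne
      linear_combination -hk
    refine ⟨evg p, -l + k * a22 - evg (dy q), ?_⟩
    linear_combination -hl - a22 * hq
  obtain ⟨a11, a12, i2⟩ := dec a0 (gen _ _ hP).1
  obtain ⟨a21, a22, i3⟩ := dec b0 (gen _ _ hP).2.1
  have Q0 : Q a11 a12 a21 a22 := ⟨a0, b0, hP, i2, i3⟩
  obtain ⟨p, q, hpq⟩ := Qgen1 Q0
  obtain ⟨m, u, v, huv⟩ := stable_range a11 a21 h p q hhne hpq
  have Q1 := Qop m (a11 + m * a21) (a12 + m * a22) Q0 (by simp) (by simp)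
  have Q2 := Qop (u * (1 - a21)) 1 _ (Qsw Q1) ⟨-(v * (1 - a21)), by
    linear_combination (1 - a21) * huv⟩ (by rw [sub_self]; exact dvd_zero _)
  have Q3 := Qop (-(a11 + m * a21)) 0 _ (Qsw Q2) (by simp) (by rw [sub_self]; exact dvd_zero _)
  generalize a12 + m * a22 + -(a11 + m * a21) * (a22 + u * (1 - a21) * (a12 + m * a22)) = d at Q3
  generalize a22 + u * (1 - a21) * (a12 + m * a22) = x at Q3
  obtain ⟨d', k, hk⟩ := Qgen2 Q3
  have Q4 := Qop (-(x * d')) 1 0 (Qsw Q3) (by simp) ⟨-(x * k), by linear_combination (-x) * hk⟩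
  obtain ⟨a1, b1, hP1, j2, j3⟩ := Q4
  simp only [map_one, map_zero, one_mul, zero_mul, add_zero, zero_add] at j2 j3
  obtain ⟨s, t, hst⟩ := hcop'
  let e : B := σ s * σ h - σ t * w
  have he : e ∈ c := c.sub_mem (c.mul_mem_left _ hH) (c.mul_mem_left _ hw)
  have he1 : e = 1 - σ t * y := by
    have := congrArg σ hst
    simp only [map_add, map_mul, map_one] at this
    simp only [e, hwdef]
    linear_combination this
  have hev : ev0 e = 1 := by rw [he1]; simp [h3]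
  let Q' : ℂ[X] → ℂ[X] → Prop := fun x2 x3 => ∃ a b, P a b ∧ a - σ h ∈ c * c ∧
    b - σ d * w ∈ c * c ∧ ev0 a = x2 ∧ ev0 b = x3
  have Q'op : ∀ a b m, Q' a b → Q' (a + m * b) b := by
    rintro _ _ m ⟨a, b, i1, i2, i3, rfl, rfl⟩
    refine ⟨a + σ m * e * b, b, op _ _ _ i1, ?_, i3, by simp [h1, hev], rfl⟩
    rw [show a + σ m * e * b - σ h = (a - σ h) + σ m * (e * b) by ring]
    exact Ideal.add_mem _ i2 (Ideal.mul_mem_left _ _ (mm he (gen _ _ i1).2.1))
  have Q'op' : ∀ a b m, Q' a b → Q' a (b + m * a) := by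
    rintro _ _ m ⟨a, b, i1, i2, i3, rfl, rfl⟩
    refine ⟨a, b + σ m * e * a, sw _ _ (op _ _ _ (sw _ _ i1)), i2, ?_, rfl, by simp [h1, hev]⟩
    rw [show b + σ m * e * a - σ d * w = (b - σ d * w) + σ m * (e * a) by ring]
    exact Ideal.add_mem _ i3 (Ideal.mul_mem_left _ _ (mm he (gen _ _ i1).1))
  have c1 : IsCoprime (ev0 a1) (ev0 b1) := by
    obtain ⟨p, q, n, -, hn⟩ := (gen _ _ hP1).2.2 e he
    have := congrArg ev0 hn
    simp only [map_add, map_mul, hev, h3, zero_mul, add_zero] at this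
    exact ⟨_, _, this.symm⟩
  have c2 : IsCoprime h (-(d * g)) := by
    apply IsCoprime.neg_right
    exact IsCoprime.mul_right ⟨-k, d', by linear_combination hk⟩ ⟨s, t, hst⟩
  have Q5 : Q' h (-(d * g)) := by
    rw [euclid_moves Q' Q'op Q'op' _ _ c2, ← euclid_moves Q' Q'op Q'op' _ _ c1]
    exact ⟨a1, b1, hP1, j2, j3, rfl, rfl⟩
  obtain ⟨a2, b2, hP2, k2, k3, k4, k5⟩ := Q5
  have fix : ∀ x ∈ c * c, ev0 x = 0 → ∃ n ∈ c * c, x = y * n := by
    intro x hx hx0
    obtain ⟨x1, hx1⟩ := h5 x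
    rw [hx0, map_zero, sub_zero] at hx1
    refine ⟨e * (e * x1) + σ t * (1 + e) * x,
      Ideal.add_mem _ (mm he (c.mul_mem_right _ he)) (Ideal.mul_mem_left _ _ hx), ?_⟩
    linear_combination (e * e) * hx1 - (1 + e) * x * he1
  obtain ⟨n2, hn2, e2⟩ := fix _ k2 (by simp [k4, h1])
  obtain ⟨n3, hn3, e3⟩ := fix _ k3 (by simp [k5, h1, hwdef, h3])
  have hP3 := ad _ _ (-n2) (Submodule.neg_mem _ hn2) hP2
  have hP4 := sw _ _ (ad _ _ (-n3) (Submodule.neg_mem _ hn3) (sw _ _ hP3))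
  rw [show a2 + y * -n2 = σ h by linear_combination e2,
    show b2 + y * -n3 = σ d * w by linear_combination e3] at hP4
  refine ⟨_, _, hP4, fun x hx => ?_⟩
  obtain ⟨a1, ha1⟩ := hdvd x hx
  obtain ⟨l, hl⟩ := h6 x
  rw [ha1, map_mul] at hl
  have hk' := congrArg σ hk
  simp only [map_sub, map_mul, map_one] at hk'
  exact ⟨σ a1 - σ k * w * l, l * σ d', by linear_combination hl - w * l * hk'⟩

end Pool.Agent.H798Z.CI
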