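import Mathlib
import Pool.Agent.H94R2.BQ.G

/-!
Gradients: the monic quadratic equation with unimodular gradient, and generators modulo the square.
-/

set_option autoImplicit false

namespace Pool.Agent.H798Z.CI

open Polynomial Matrix

/-- the ring of the four-dimensional affine space -/
abbrev AA := MvPolynomial (Fin 4) ℂ

/-- the ring of the plane -/
abbrev BB := MvPolynomial (Fin 2) ℂ

theorem complete24 {L : Type} [CommRing L] [CharZero L] (hL : BQ.IdemFree L)
    (M : Matrix (Fin 2) (Fin 4) L) (N : Matrix (Fin 4) (Fin 2) L) (h : M * N = 1) :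
    ∃ (U : Matrix (Fin 4) (Fin 2) L) (V : Matrix (Fin 2) (Fin 4) L),
      U * V = 1 - N * M ∧ V * U = 1 := by
  have h1 : N * M * (N * M) = N * M := by
    rw [Matrix.mul_assoc, ← Matrix.mul_assoc M, h, Matrix.one_mul]
  obtain ⟨s, U, V, hUV, hVU⟩ := hL 4 (1 - N * M) (by
    rw [Matrix.sub_mul, Matrix.mul_sub, Matrix.mul_sub, h1]; simp)
  have h2 : (s : L) = 2 := by
    have a1 := Matrix.trace_mul_comm U V
    rw [hUV, hVU, Matrix.trace_sub, Matrix.trace_mul_comm N M, h] at a1
    simp only [Matrix.trace_one, Fintype.card_fin, Nat.cast_ofNat] at a1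
    linear_combination -a1
  have h3 : s = 2 := by exact_mod_cast h2
  subst h3
  exact ⟨U, V, hUV, hVU⟩

theorem chain {ι S : Type} [Fintype ι] [CommRing S] [Algebra ℂ S]
    (φ : MvPolynomial ι ℂ →ₐ[ℂ] S) (d : Derivation ℂ S S) (a : MvPolynomial ι ℂ) :
    d (φ a) = ∑ j, φ (MvPolynomial.pderiv j a) * d (φ (MvPolynomial.X j)) := by
  classical
  induction a using MvPolynomial.induction_on with
  | C a => simp [MvPolynomial.algHom_C]
  | add p q hp hq => simp only [map_add, hp, hq, Finset.sum_add_distrib, add_mul]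
  | mul_X q j hq =>
    rw [map_mul, d.leibniz, hq]
    simp only [Derivation.leibniz, MvPolynomial.pderiv_X, smul_eq_mul, map_add, map_mul, add_mul,
      Finset.sum_add_distrib, Finset.mul_sum]
    congr 1
    · rw [Finset.sum_eq_single j]
      · simp
      · intro i _ hi
        simp [hi.symm]
      · simp
    · exact Finset.sum_congr rfl fun i _ => by ring

/-- restriction to the curve `y = g(z)` -/
noncomputable def evc (g : ℂ[X]) : BB →ₐ[ℂ] ℂ[X] := MvPolynomial.aeval ![g, X]

/-- polynomials in `z` -/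
noncomputable def sg : ℂ[X] →ₐ[ℂ] BB := Polynomial.aeval (MvPolynomial.X 1)

@[simp] theorem evc_y (g : ℂ[X]) : evc g (MvPolynomial.X 0) = g := by simp [evc]

@[simp] theorem evc_z (g : ℂ[X]) : evc g (MvPolynomial.X 1) = X := by simp [evc]

@[simp] theorem evc_sg (g p : ℂ[X]) : evc g (sg p) = p := by
  rw [sg, ← Polynomial.aeval_algHom_apply, evc_z, aeval_X_left_apply]

theorem dvd_evc (g : ℂ[X]) (x : BB) : MvPolynomial.X 0 - sg g ∣ x - sg (evc g x) := by
  induction x using MvPolynomial.induction_on with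
  | C a => simp [MvPolynomial.algHom_C, sg]
  | add p q hp hq =>
    rw [map_add, map_add, show p + q - (sg (evc g p) + sg (evc g q)) =
      (p - sg (evc g p)) + (q - sg (evc g q)) by ring]
    exact dvd_add hp hq
  | mul_X q j hq =>
    have hj : MvPolynomial.X 0 - sg g ∣ MvPolynomial.X j - sg (evc g (MvPolynomial.X j)) := by
      fin_cases j
      · simp
      · simp [sg]
    rw [map_mul, map_mul, show q * MvPolynomial.X j - sg (evc g q) * sg (evc g (MvPolynomial.X j))
      = (q - sg (evc g q)) * MvPolynomial.X j +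
        sg (evc g q) * (MvPolynomial.X j - sg (evc g (MvPolynomial.X j))) by ring]
    exact dvd_add (hq.mul_right _) (hj.mul_left _)

theorem dvd_ev0 (x : BB) (hx : evc 0 x = 0) : ∃ x1, x = MvPolynomial.X 0 * x1 := by
  have := dvd_evc 0 x
  rw [hx, map_zero, sub_zero, sub_zero] at this
  exact this

theorem dy_sg (p : ℂ[X]) : MvPolynomial.pderiv 0 (sg p) = 0 := by
  rw [sg, Derivation.map_aeval]
  simp [MvPolynomial.pderiv_X]

theorem idemFree_poly : BQ.IdemFree ℂ[X] := BQ.idemFree_pid _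

theorem idemFree_BB : BQ.IdemFree BB := BQ.quillen_suslin 2 ℂ

theorem idemFree_RR : BQ.IdemFree AA[X] :=
  (BQ.quillen_suslin 5 ℂ).of_equiv (MvPolynomial.finSuccEquiv ℂ 4).toRingEquiv

theorem exists_unimod (π : AA →ₐ[ℂ] BB) (b0 u0 v0 V U : AA) (t : BB)
    (hb : π b0 = MvPolynomial.X 0 ^ 2)
    (hz : π u0 + π v0 * MvPolynomial.X 0 = MvPolynomial.X 1)
    (hV : π V = 1 - t * MvPolynomial.X 0) (hU : π U = π V * MvPolynomial.X 0)
    (hc : ∀ x, ∃ a, π a = π V * x) :
    ∃ (b : AA) (κ : Fin 4 → BB), π b = MvPolynomial.X 0 ^ 2 ∧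
      ∑ j, π (MvPolynomial.pderiv j b) * κ j = 1 := by
  classical
  set y : BB := MvPolynomial.X 0 with hy
  let π0 : AA →ₐ[ℂ] ℂ[X] := (evc 0).comp π
  have hπ0 : ∀ a, π0 a = evc 0 (π a) := fun a => rfl
  have ey : evc 0 y = 0 := evc_y 0
  have dyy : MvPolynomial.pderiv 0 y = 1 := by simp [hy, MvPolynomial.pderiv_X]
  let gr : AA → Fin 4 → ℂ[X] := fun a j => π0 (MvPolynomial.pderiv j a)
  let τy : Fin 4 → ℂ[X] := fun j => evc 0 (MvPolynomial.pderiv 0 (π (MvPolynomial.X j)))
  let τz : Fin 4 → ℂ[X] := fun j => derivative (π0 (MvPolynomial.X j))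
  have c1 : ∀ a, ∑ j, gr a j * τy j = evc 0 (MvPolynomial.pderiv 0 (π a)) := by
    intro a
    rw [chain π (MvPolynomial.pderiv 0) a, map_sum]
    simp only [map_mul, gr, τy, hπ0]
  have c2 : ∀ a, ∑ j, gr a j * τz j = derivative (π0 a) := fun a =>
    (chain π0 (derivative' (R := ℂ)) a).symm
  have pV : π0 V = 1 := by rw [hπ0, hV]; simp [ey]
  have pU : π0 U = 0 := by rw [hπ0, hU]; simp [ey]
  have pu : π0 u0 = X := by
    have := congrArg (evc 0) hz
    simpa [ey, hπ0] using this
  have pb : π0 b0 = 0 := by rw [hπ0, hb]; simp [ey]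
  have d1 : ∑ j, gr U j * τy j = 1 := by
    rw [c1, hU, Derivation.leibniz, dyy]
    simp [ey, ← hπ0, pV]
  have d2 : ∑ j, gr U j * τz j = 0 := by rw [c2, pU]; simp
  have d3 : ∑ j, gr u0 j * τy j = -π0 v0 := by
    rw [c1, show π u0 = MvPolynomial.X 1 - π v0 * y by rw [← hz]; ring, map_sub,
      Derivation.leibniz, dyy]
    simp [ey, hπ0, MvPolynomial.pderiv_X]
  have d4 : ∑ j, gr u0 j * τz j = 1 := by rw [c2, pu]; simp
  let M : Matrix (Fin 2) (Fin 4) ℂ[X] := Matrix.of ![gr U, fun j => gr u0 j + π0 v0 * gr U j]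
  let N : Matrix (Fin 4) (Fin 2) ℂ[X] := Matrix.of fun j => ![τy j, τz j]
  have hMN : M * N = 1 := by
    ext1 a b
    fin_cases a <;> fin_cases b <;>
      simp [M, N, Matrix.mul_apply, add_mul, Finset.sum_add_distrib, mul_assoc, ← Finset.mul_sum,
        d1, d2, d3, d4]
  obtain ⟨U', V', hUV, hVU⟩ := complete24 idemFree_poly M N hMN
  have hVN : V' * N = 0 := by
    calc V' * N = (V' * U') * V' * N := by rw [hVU, Matrix.one_mul]
      _ = V' * ((U' * V') * N) := by simp only [Matrix.mul_assoc]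
      _ = 0 := by rw [hUV, Matrix.sub_mul, Matrix.mul_assoc N, hMN]; simp
  let ω : Fin 4 → ℂ[X] := V' 0
  have w1 : ∑ j, ω j * τy j = 0 := by
    simpa [Matrix.mul_apply, N] using congrFun (congrFun hVN 0) 0
  have w2 : ∑ j, ω j * τz j = 0 := by
    simpa [Matrix.mul_apply, N] using congrFun (congrFun hVN 0) 1
  have w3 : ∑ j, ω j * U' j 0 = 1 := by
    simpa [Matrix.mul_apply] using congrFun (congrFun hVU 0) 0
  have s0 : ∀ p : ℂ[X], π0 (aeval u0 p) = p := fun p => by
    rw [← Polynomial.aeval_algHom_apply, pu, aeval_X_left_apply]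
  let a : AA := ∑ j, aeval u0 (ω j) * (MvPolynomial.X j - aeval u0 (π0 (MvPolynomial.X j)))
  have pa : π0 a = 0 := by simp [a, s0]
  have ga : ∀ l, gr a l = ω l := by
    intro l
    have : ∀ j, π0 (MvPolynomial.pderiv l (aeval u0 (ω j) *
        (MvPolynomial.X j - aeval u0 (π0 (MvPolynomial.X j))))) =
        (if j = l then ω j else 0) - ω j * τz j * gr u0 l := by
      intro j
      rw [Derivation.leibniz, Derivation.map_sub, Derivation.map_aeval _ (π0 _)]
      simp only [smul_eq_mul, map_add, map_mul, map_sub, s0, sub_self, zero_mul, add_zero,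
        MvPolynomial.pderiv_X, gr, τz]
      by_cases h : j = l
      · subst h; simp; ring
      · simp [h]; ring
    simp only [gr, a, map_sum] at this ⊢
    rw [Finset.sum_congr rfl fun j _ => this j, Finset.sum_sub_distrib, ← Finset.sum_mul, w2]
    simp
  obtain ⟨a1, ha1⟩ := dvd_ev0 (π a) pa
  have ea1 : evc 0 a1 = 0 := by
    have := c1 a
    simp only [ga, w1, ha1] at this
    rw [← hy, Derivation.leibniz, dyy] at this
    simpa [ey] using this.symm
  obtain ⟨a2, ha2⟩ := dvd_ev0 a1 ea1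
  obtain ⟨a3, ha3⟩ := hc (a2 - 1)
  let b : AA := b0 + (V ^ 3 * (a - b0) - U ^ 2 * a3)
  have hb' : π b = y ^ 2 := by
    simp only [b, map_add, map_sub, map_mul, map_pow, hb, hU, ha3, ha1, ha2, ← hy]
    ring
  have gb : ∀ l, gr b l = ω l := by
    intro l
    rw [← ga l]
    simp only [gr, b, map_add, map_sub, Derivation.leibniz, Derivation.leibniz_pow, smul_eq_mul,
      map_mul, map_pow, map_nsmul, pV, pU, pa, pb]
    simp
  obtain ⟨m, hm⟩ := dvd_ev0 (∑ j, π (MvPolynomial.pderiv j b) * sg (U' j 0) - 1) (by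
    rw [map_sub, map_sum, map_one, ← w3, sub_eq_zero]
    exact Finset.sum_congr rfl fun j _ => by rw [map_mul, evc_sg, ← gb j]; rfl)
  have c3 := chain π (MvPolynomial.pderiv 0) b
  rw [hb', Derivation.leibniz_pow, dyy] at c3
  refine ⟨b, fun j => sg (U' j 0) - MvPolynomial.C (1 / 2 : ℂ) * m *
    MvPolynomial.pderiv 0 (π (MvPolynomial.X j)), hb', ?_⟩
  have h2 : (MvPolynomial.C (1 / 2 : ℂ) : BB) * 2 = 1 := by
    rw [show (2 : BB) = MvPolynomial.C 2 from rfl, ← map_mul]; norm_num
  simp only [mul_sub, Finset.sum_sub_distrib]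
  rw [Finset.sum_congr rfl fun j _ => mul_left_comm _ _ _, ← Finset.mul_sum, ← c3]
  simp only [smul_eq_mul, nsmul_eq_mul, Nat.cast_ofNat]
  rw [← hy] at hm
  linear_combination hm - m * y * h2

end Pool.Agent.H798Z.CI
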