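import Mathlib
import Pool.Agent.H94R2.BQ.G

/-!
Completion of a unimodular row with a monic quadratic entry, and the patching step.
-/

set_option autoImplicit false

namespace Pool.Agent.H798Z.CI

open Polynomial Matrix

theorem idem_row {R : Type} [CommRing R] (r g : Fin 3 → R) (h : r ⬝ᵥ g = 1) :
    (1 - vecMulVec g r) * (1 - vecMulVec g r) = 1 - vecMulVec g r := by
  have : vecMulVec g r * vecMulVec g r = vecMulVec g r := by
    rw [vecMulVec_mul_vecMulVec, h]; simp
  rw [Matrix.sub_mul, Matrix.mul_sub, Matrix.mul_sub, this]; simp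

theorem split_away {R : Type} [CommRing R] (r g : Fin 3 → R) (h : r ⬝ᵥ g = 1) (i : Fin 3) :
    ∃ (U : Matrix (Fin 3) (Fin 2) R) (V : Matrix (Fin 2) (Fin 3) R),
      U * V = r i • (1 - vecMulVec g r) ∧ V * U = r i • (1 : Matrix (Fin 2) (Fin 2) R) := by
  have h' : r 0 * g 0 + r 1 * g 1 + r 2 * g 2 = 1 := by
    simpa [dotProduct, Fin.sum_univ_three] using h
  fin_cases i
  · refine ⟨!![-r 1, -r 2; r 0, 0; 0, r 0],
      !![-g 1 * r 0, 1 - g 1 * r 1, -g 1 * r 2; -g 2 * r 0, -g 2 * r 1, 1 - g 2 * r 2], ?_, ?_⟩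
    · ext a b
      fin_cases a <;> fin_cases b <;>
        simp [Matrix.mul_apply, Fin.sum_univ_two, vecMulVec_apply] <;>
        first | ring1 | linear_combination (r 0) * h' | linear_combination (r 1) * h' | linear_combination (r 2) * h'
    · ext a b
      fin_cases a <;> fin_cases b <;>
        simp [Matrix.mul_apply, Fin.sum_univ_three] <;> ring1
  · refine ⟨!![r 1, 0; -r 0, -r 2; 0, r 1],
      !![1 - g 0 * r 0, -g 0 * r 1, -g 0 * r 2; -g 2 * r 0, -g 2 * r 1, 1 - g 2 * r 2], ?_, ?_⟩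
    · ext a b
      fin_cases a <;> fin_cases b <;>
        simp [Matrix.mul_apply, Fin.sum_univ_two, vecMulVec_apply] <;>
        first | ring1 | linear_combination (r 0) * h' | linear_combination (r 1) * h' | linear_combination (r 2) * h'
    · ext a b
      fin_cases a <;> fin_cases b <;>
        simp [Matrix.mul_apply, Fin.sum_univ_three] <;> ring1
  · refine ⟨!![r 2, 0; 0, r 2; -r 0, -r 1],
      !![1 - g 0 * r 0, -g 0 * r 1, -g 0 * r 2; -g 1 * r 0, 1 - g 1 * r 1, -g 1 * r 2], ?_, ?_⟩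
    · ext a b
      fin_cases a <;> fin_cases b <;>
        simp [Matrix.mul_apply, Fin.sum_univ_two, vecMulVec_apply] <;>
        first | ring1 | linear_combination (r 0) * h' | linear_combination (r 1) * h' | linear_combination (r 2) * h'
    · ext a b
      fin_cases a <;> fin_cases b <;>
        simp [Matrix.mul_apply, Fin.sum_univ_three] <;> ring1

theorem map_idem {R S : Type} [CommRing R] [CommRing S] (φ : R →+* S) (r g : Fin 3 → R) :
    (1 - vecMulVec g r).map φ = 1 - vecMulVec (φ ∘ g) (φ ∘ r) := by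
  ext a b
  by_cases h : a = b
  · subst h; simp [vecMulVec_apply]
  · simp [vecMulVec_apply, Matrix.one_apply_ne h]

theorem map_dot {R S : Type} [CommRing R] [CommRing S] (φ : R →+* S) (r g : Fin 3 → R)
    (h : r ⬝ᵥ g = 1) : (φ ∘ r) ⬝ᵥ (φ ∘ g) = 1 := by
  rw [← map_one φ, ← h]
  simp [dotProduct]

theorem local_row {L : Type} [CommRing L] [IsLocalRing L] (r g : Fin 3 → L[X]) (h : r ⬝ᵥ g = 1)
    (hd : ∀ i, (r i).natDegree ≤ 2) (i : Fin 3) (hu : IsUnit ((r i).coeff 2)) :
    ∃ (U : Matrix (Fin 3) (Fin 2) L[X]) (V : Matrix (Fin 2) (Fin 3) L[X]),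
      U * V = 1 - vecMulVec g r ∧ V * U = 1 := by
  obtain ⟨U, V, h1, h2⟩ := split_away r g h i
  obtain ⟨u, hu⟩ := hu
  have hm : (C (↑u⁻¹ : L) * r i).Monic := by
    apply monic_of_natDegree_le_of_coeff_eq_one 2
    · exact (natDegree_C_mul_le _ _).trans (hd i)
    · rw [coeff_C_mul, ← hu]; simp
  refine BQ.horrocks _ (idem_row r g h) _ hm (C (↑u⁻¹ : L) • U) V ?_ ?_
  · rw [Matrix.smul_mul, h1, smul_smul]
  · rw [Matrix.mul_smul, h2, smul_smul]

theorem hom_row {L : Type} [CommRing L] (r g : Fin 3 → L[X]) (h : r ⬝ᵥ g = 1)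
    (hd : ∀ i, (r i).natDegree ≤ 2) (c : Fin 3 → L) (hc : ∑ i, (r i).coeff 2 * c i = 1)
    (h0 : (r 0).eval 1 = 1) (h1 : (r 1).eval 1 = 0) (h2 : (r 2).eval 1 = 0) :
    ∃ (U : Matrix (Fin 3) (Fin 2) L) (V : Matrix (Fin 2) (Fin 3) L),
      U * V = 1 - vecMulVec (fun i => (g i).eval 0) (fun i => (r i).eval 0) ∧ V * U = 1 := by
  obtain ⟨U', V', hUV, hVU⟩ := BQ.patch (1 - vecMulVec g r) (idem_row r g h) (by
    intro m hm
    let φ : L →+* Localization.AtPrime m := algebraMap L _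
    have hex : ∃ i, (r i).coeff 2 ∉ m := by
      by_contra hcon
      push Not at hcon
      apply hm.ne_top
      rw [Ideal.eq_top_iff_one, ← hc]
      exact Ideal.sum_mem _ fun i _ => Ideal.mul_mem_right _ _ (hcon i)
    obtain ⟨i, hi⟩ := hex
    obtain ⟨U, V, h3, h4⟩ := local_row (mapRingHom φ ∘ r) (mapRingHom φ ∘ g) (map_dot _ r g h)
      (fun j => natDegree_map_le.trans (hd j)) i (by
        simp only [Function.comp, coe_mapRingHom, coeff_map]
        exact IsLocalization.map_units (Localization.AtPrime m) (⟨_, hi⟩ : m.primeCompl))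
    exact ⟨2, U, V, by rw [h3, map_idem], h4⟩)
  let e1 : L[X] →+* L := evalRingHom 1
  let e0 : L[X] →+* L := evalRingHom 0
  have hg : (g 0).eval 1 = 1 := by
    have := map_dot e1 r g h
    simpa [dotProduct, Fin.sum_univ_three, e1, h0, h1, h2] using this
  set E0 : Matrix (Fin 3) (Fin 3) L :=
    1 - vecMulVec (fun i => (g i).eval 0) (fun i => (r i).eval 0) with hE0
  have hE0' : E0 = (1 - vecMulVec g r).map e0 := by rw [map_idem]; rfl
  have hE0i : E0 * E0 = E0 := by
    rw [hE0', ← Matrix.map_mul, idem_row r g h]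
  have hA : U'.map e1 * V'.map e1 = (1 - vecMulVec g r).map e1 := by
    rw [← Matrix.map_mul, hUV]
  have hB : V'.map e1 * U'.map e1 = E0 := by
    rw [← Matrix.map_mul, hVU, hE0']
    ext a b
    simp [e1, e0]
  let U1 : Matrix (Fin 3) (Fin 2) L := !![0, 0; 1, 0; 0, 1]
  let V1 : Matrix (Fin 2) (Fin 3) L := !![-(g 1).eval 1, 1, 0; -(g 2).eval 1, 0, 1]
  have hC : U1 * V1 = (1 - vecMulVec g r).map e1 := by
    rw [map_idem]
    ext a b
    fin_cases a <;> fin_cases b <;>
      simp [U1, V1, Matrix.mul_apply, Fin.sum_univ_two, vecMulVec_apply, e1, h0, h1, h2, hg]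
  have hD : V1 * U1 = 1 := by
    ext a b
    fin_cases a <;> fin_cases b <;> simp [U1, V1, Matrix.mul_apply, Fin.sum_univ_three]
  refine ⟨V'.map e1 * U1, V1 * U'.map e1, ?_, ?_⟩
  · calc V'.map e1 * U1 * (V1 * U'.map e1) = V'.map e1 * (U1 * V1) * U'.map e1 := by
          simp only [Matrix.mul_assoc]
      _ = (V'.map e1 * U'.map e1) * (V'.map e1 * U'.map e1) := by
          rw [hC, ← hA]; simp only [Matrix.mul_assoc]
      _ = E0 := by rw [hB, hE0i]
  · calc V1 * U'.map e1 * (V'.map e1 * U1) = V1 * (U'.map e1 * V'.map e1) * U1 := by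
          simp only [Matrix.mul_assoc]
      _ = (V1 * U1) * (V1 * U1) := by rw [hA, ← hC]; simp only [Matrix.mul_assoc]
      _ = 1 := by rw [hD, Matrix.one_mul]

theorem compl_of_split {R : Type} [CommRing R] (r g : Fin 3 → R)
    (U : Matrix (Fin 3) (Fin 2) R) (V : Matrix (Fin 2) (Fin 3) R)
    (hUV : U * V = 1 - vecMulVec g r) :
    ∃ G G' : Matrix (Fin 3) (Fin 3) R, G * G' = 1 ∧ G' * G = 1 ∧ r ᵥ* G = Pi.single 0 1 := by
  let G : Matrix (Fin 3) (Fin 3) R := Matrix.of fun a b => (Fin.cons (g a) (U a) : Fin 3 → R) b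
  let G' : Matrix (Fin 3) (Fin 3) R := Matrix.of fun a b =>
    (Fin.cons (r b) (fun k => V k b) : Fin 3 → R) a
  have h1 : G * G' = 1 := by
    have : G * G' = vecMulVec g r + U * V := by
      ext a b
      simp [G, G', Matrix.mul_apply, Fin.sum_univ_succ, vecMulVec_apply]
    rw [this, hUV]; simp
  have h2 : G' * G = 1 := mul_eq_one_comm.1 h1
  refine ⟨G, G', h1, h2, ?_⟩
  have h3 : r = (Pi.single 0 1 : Fin 3 → R) ᵥ* G' := by
    ext b
    simp [G']
  rw [h3, vecMul_vecMul, h2, vecMul_one]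

theorem quad_row {L : Type} [CommRing L] (b u1 v1 u2 v2 g0 p1 q1 p2 q2 : L)
    (e2 : g0 + v1 * q1 + v2 * q2 = 0) (e1 : u1 * q1 + v1 * p1 + u2 * q2 + v2 * p2 = 0)
    (e0 : -b * g0 + u1 * p1 + u2 * p2 = 1) :
    ∃ G G' : Matrix (Fin 3) (Fin 3) L[X], G * G' = 1 ∧ G' * G = 1 ∧
      ![X ^ 2 - C b, C u1 + C v1 * X, C u2 + C v2 * X] ᵥ* G = Pi.single 0 1 := by
  let P : L[X][X] := C X + C (1 - X) * X
  let Q : L[X][X] := 1 - X
  let j : L →+* L[X][X] := C.comp C
  let r : Fin 3 → L[X][X] :=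
    ![P ^ 2 - j b * Q ^ 2, (j u1 * Q + j v1 * P) * Q, (j u2 * Q + j v2 * P) * Q]
  have e2' : j g0 + j v1 * j q1 + j v2 * j q2 = 0 := by
    simpa only [map_add, map_mul, map_zero] using congrArg j e2
  have e1' : j u1 * j q1 + j v1 * j p1 + j u2 * j q2 + j v2 * j p2 = 0 := by
    simpa only [map_add, map_mul, map_zero] using congrArg j e1
  have e0' : -j b * j g0 + j u1 * j p1 + j u2 * j p2 = 1 := by
    simpa only [map_add, map_mul, map_one, map_neg] using congrArg j e0
  have hPQ : IsCoprime P Q := ⟨1, C (1 - X), by simp only [P, Q, map_sub, map_one]; ring⟩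
  have hc : IsCoprime (P ^ 2 - j b * Q ^ 2) (Q ^ 3) := by
    apply IsCoprime.pow_right
    have := (hPQ.pow_left (m := 2)).add_mul_left_left (-(j b * Q))
    rwa [show P ^ 2 + Q * -(j b * Q) = P ^ 2 - j b * Q ^ 2 by ring] at this
  obtain ⟨x, y, hxy⟩ := hc
  let g : Fin 3 → L[X][X] :=
    ![x + y * j g0 * Q, y * (j p1 * Q + j q1 * P), y * (j p2 * Q + j q2 * P)]
  have hrg : r ⬝ᵥ g = 1 := by
    simp only [dotProduct, Fin.sum_univ_three, r, g, Matrix.cons_val_zero, Matrix.cons_val_one,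
      Matrix.cons_val]
    linear_combination hxy + y * Q * P ^ 2 * e2' + y * Q ^ 2 * P * e1' + y * Q ^ 3 * e0'
  have hr0 : r 0 = C ((1 - X) ^ 2 - C b) * X ^ 2 + C (2 * X * (1 - X) + 2 * C b) * X +
      C (X ^ 2 - C b) := by
    simp only [r, P, Q, j, Matrix.cons_val_zero, RingHom.comp_apply, map_sub, map_add, map_mul,
      map_pow, map_one, map_ofNat]
    ring
  have hri : ∀ u v : L, (j u * Q + j v * P) * Q = C (C u - C v * (1 - X)) * X ^ 2 +
      C (-2 * C u + C v * (1 - 2 * X)) * X + C (C u + C v * X) := by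
    intro u v
    simp only [P, Q, j, RingHom.comp_apply, map_sub, map_add, map_mul, map_neg,
      map_one, map_ofNat]
    ring
  have hr1 : r 1 = _ := hri u1 v1
  have hr2 : r 2 = _ := hri u2 v2
  have hdeg : ∀ a b c : L[X], (C a * X ^ 2 + C b * X + C c).natDegree ≤ 2 :=
    fun a b c => natDegree_quadratic_le
  have hco : ∀ a b c : L[X], (C a * X ^ 2 + C b * X + C c).coeff 2 = a := by
    intro a b c; simp
  have e2c := congrArg (C : L →+* L[X]) e2
  have e1c := congrArg (C : L →+* L[X]) e1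
  have e0c := congrArg (C : L →+* L[X]) e0
  simp only [map_add, map_mul, map_zero, map_neg, map_one] at e2c e1c e0c
  obtain ⟨U, V, hUV, -⟩ := hom_row r g hrg
    (by
      intro i
      fin_cases i
      · exact hr0 ▸ hdeg _ _ _
      · exact hr1 ▸ hdeg _ _ _
      · exact hr2 ▸ hdeg _ _ _)
    ![C g0, C p1 - C q1 * (1 - X), C p2 - C q2 * (1 - X)]
    (by
      rw [Fin.sum_univ_three, hr0, hr1, hr2, hco, hco, hco]
      simp only [Matrix.cons_val_zero, Matrix.cons_val_one, Matrix.cons_val]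
      linear_combination (1 - X) ^ 2 * e2c - (1 - X) * e1c + e0c)
    (by rw [hr0]; simp; ring) (by rw [hr1]; simp; ring) (by rw [hr2]; simp; ring)
  have hr : (fun i => (r i).eval 0) = ![X ^ 2 - C b, C u1 + C v1 * X, C u2 + C v2 * X] := by
    funext i
    fin_cases i
    · simp only [Fin.zero_eta]; rw [hr0]; simp
    · simp only [Fin.mk_one]; rw [hr1]; simp
    · simp only [Fin.reduceFinMk]; rw [hr2]; simp
  rw [hr] at hUV
  exact compl_of_split _ _ U V hUV

end Pool.Agent.H798Z.CI
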