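import Mathlib
import Pool.Agent.H798Z.CI.Row

/-!
Patching local generators.
-/

set_option autoImplicit false

namespace Pool.Agent.H798Z.CI

open Polynomial Matrix

theorem quad_div {A : Type} [CommRing A] (b : A) (g : A[X]) :
    ∃ (p q : A) (r : A[X]), g = C p + C q * X + (X ^ 2 - C b) * r := by
  induction g using Polynomial.induction_on with
  | C a => exact ⟨a, 0, 0, by simp⟩
  | add f g hf hg =>
    obtain ⟨p, q, r, rfl⟩ := hf
    obtain ⟨p', q', r', rfl⟩ := hg
    exact ⟨p + p', q + q', r + r', by simp only [map_add]; ring⟩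
  | monomial n a h =>
    obtain ⟨p, q, r, h⟩ := h
    refine ⟨q * b, p, C q + X * r, ?_⟩
    rw [pow_succ, ← mul_assoc, h]
    simp only [map_mul]; ring

theorem quad_unique {A : Type} [CommRing A] (b p q : A) (r : A[X])
    (h : (X ^ 2 - C b) * r = C p + C q * X) : p = 0 ∧ q = 0 := by
  nontriviality A
  have hr : r = 0 := by
    by_contra hr
    have hm : (X ^ 2 - C b : A[X]).Monic := monic_X_pow_sub_C b (by norm_num)
    have h1 : ((X ^ 2 - C b) * r).natDegree = 2 + r.natDegree := by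
      rw [hm.natDegree_mul' hr, natDegree_X_pow_sub_C]
    have h2 : (C p + C q * X).natDegree ≤ 1 := by
      rw [add_comm]; exact natDegree_linear_le
    rw [h] at h1
    omega
  rw [hr, mul_zero] at h
  have h0 := congrArg (coeff · 0) h
  have h1 := congrArg (coeff · 1) h
  simp [coeff_C] at h0 h1
  exact ⟨h0.symm, h1.symm⟩

theorem three_eqs {A : Type} [CommRing A] (b u1 v1 u2 v2 c : A)
    (h : C c ∈ Ideal.span (Set.range ![X ^ 2 - C b, C u1 + C v1 * X, C u2 + C v2 * X])) :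
    ∃ g0 p1 q1 p2 q2 : A, g0 + v1 * q1 + v2 * q2 = 0 ∧
      u1 * q1 + v1 * p1 + u2 * q2 + v2 * p2 = 0 ∧ -b * g0 + u1 * p1 + u2 * p2 = c := by
  obtain ⟨g, hg⟩ := Ideal.mem_span_range_iff_exists_fun.1 h
  simp only [Fin.sum_univ_three, Matrix.cons_val_zero, Matrix.cons_val_one, Matrix.cons_val] at hg
  obtain ⟨p1, q1, r1, h1⟩ := quad_div b (g 1)
  obtain ⟨p2, q2, r2, h2⟩ := quad_div b (g 2)
  have := quad_unique b (c - (b * (v1 * q1 + v2 * q2) + u1 * p1 + u2 * p2))
    (-(u1 * q1 + v1 * p1 + u2 * q2 + v2 * p2))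
    (g 0 + r1 * (C u1 + C v1 * X) + r2 * (C u2 + C v2 * X) + C (v1 * q1 + v2 * q2)) (by
      rw [h1, h2] at hg
      simp only [map_add, map_mul, map_sub, map_neg]
      linear_combination hg)
  refine ⟨-(v1 * q1 + v2 * q2), p1, q1, p2, q2, by ring, ?_, ?_⟩
  · linear_combination -this.2
  · linear_combination -this.1

theorem patch_gen {R Ω : Type} [CommRing R] [CommRing Ω] [Nontrivial Ω] (hR : BQ.IdemFree R)
    (ι : R →+* Ω) (hι : Function.Injective ι) (t : R)
    (hden : ∀ M : Matrix (Fin 3) (Fin 3) Ω, ∃ (N : ℕ) (M₀ : Matrix (Fin 3) (Fin 3) R),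
      (ι (t * (1 + t))) ^ N • M = M₀.map ι)
    (I : Ideal R) (f : Fin 3 → R) (hf : ∀ i, f i ∈ I) (ht : t ∈ I)
    (hI : ∀ g ∈ I, (1 + t) * g ∈ Ideal.span (Set.range f))
    (G G' : Matrix (Fin 3) (Fin 3) Ω) (h1 : G * G' = 1) (h2 : G' * G = 1)
    (h3 : (ι ∘ f) ᵥ* G = Pi.single 0 1) :
    ∃ f' : Fin 3 → R, Ideal.span (Set.range f') = I := by
  obtain ⟨E', Im, Jm, hE', hIJ, hJI, ⟨N1, I₀, hI₀⟩, ⟨N2, J₀, hJ₀⟩, ⟨N3, I₁, hI₁⟩, ⟨N4, J₁, hJ₁⟩⟩ :=
    BQ.glue ι hι t (1 + t) (-1) 1 (by ring) (1 : Matrix (Fin 3) (Fin 3) Ω)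
      ⟨0, 1, by simp⟩ G' G (hden G') (hden G) h2 h1
  obtain ⟨m, U', V', hUV, hVU⟩ := hR _ E' hE'
  have hUV' : U'.map ι * V'.map ι = Im * Jm := by rw [← Matrix.map_mul, hUV, hIJ]
  have hVU' : V'.map ι * U'.map ι = 1 := by
    rw [← Matrix.map_mul, hVU, Matrix.map_one _ (map_zero _) (map_one _)]
  have hW1 : (Jm * U'.map ι) * (V'.map ι * Im) = 1 := by
    calc (Jm * U'.map ι) * (V'.map ι * Im) = Jm * (U'.map ι * V'.map ι) * Im := by
          simp only [Matrix.mul_assoc]
      _ = (Jm * Im) * (Jm * Im) := by rw [hUV']; simp only [Matrix.mul_assoc]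
      _ = 1 := by rw [hJI, Matrix.one_mul]
  have hW2 : (V'.map ι * Im) * (Jm * U'.map ι) = 1 := by
    calc (V'.map ι * Im) * (Jm * U'.map ι) = V'.map ι * (Im * Jm) * U'.map ι := by
          simp only [Matrix.mul_assoc]
      _ = (V'.map ι * U'.map ι) * (V'.map ι * U'.map ι) := by
          rw [← hUV']; simp only [Matrix.mul_assoc]
      _ = 1 := by rw [hVU', Matrix.one_mul]
  have hm : m = 3 := by
    have := Matrix.square_of_invertible _ _ hW2 hW1
    simpa using this
  subst hm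
  let w : Fin 3 → Ω := (Pi.single 0 1 : Fin 3 → Ω) ᵥ* (Jm * U'.map ι)
  have hw : w = (ι ∘ f) ᵥ* (G * Jm * U'.map ι) := by
    simp only [w]
    rw [← h3, vecMul_vecMul, Matrix.mul_assoc]
  have mapv : ∀ {n : ℕ} (x : Fin n → R) (M : Matrix (Fin n) (Fin 3) R),
      (ι ∘ x) ᵥ* M.map ι = ι ∘ (x ᵥ* M) := by
    intro n x M
    funext k
    simp [vecMul, dotProduct]
  have hA : ι t ^ N2 • w = ι ∘ ((Pi.single 0 1 : Fin 3 → R) ᵥ* (J₀ * U')) := by
    have h0 : ι ∘ (Pi.single 0 1 : Fin 3 → R) = Pi.single 0 1 := by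
      funext k
      by_cases hk : k = 0
      · subst hk; simp
      · simp [hk]
    rw [← mapv, Matrix.map_mul, ← hJ₀, Matrix.smul_mul, vecMul_smul, h0]
  have hB : ι (1 + t) ^ N4 • w = ι ∘ (f ᵥ* (J₁ * U')) := by
    rw [← mapv, Matrix.map_mul, ← hJ₁, Matrix.smul_mul, vecMul_smul, hw]
  have hc : IsCoprime t (1 + t) := ⟨-1, 1, by ring⟩
  obtain ⟨a, b, hab⟩ := hc.pow (m := N2) (n := N4)
  let y : Fin 3 → R := a • ((Pi.single 0 1 : Fin 3 → R) ᵥ* (J₀ * U')) + b • (f ᵥ* (J₁ * U'))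
  have hy : ι ∘ y = w := by
    funext k
    have a1 := congrFun hA k
    have a2 := congrFun hB k
    have a3 := congrArg ι hab
    simp only [Pi.smul_apply, smul_eq_mul, Function.comp, map_add, map_mul, map_pow, map_one,
      y, Pi.add_apply] at a1 a2 a3 ⊢
    rw [← a1, ← a2]
    linear_combination (w k) * a3
  refine ⟨y, le_antisymm ?_ fun g hg => ?_⟩
  · rw [Ideal.span_le]
    rintro _ ⟨k, rfl⟩
    have a1 : (1 + t) ^ N4 * y k = (f ᵥ* (J₁ * U')) k := by
      apply hι
      have a2 := congrFun hB k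
      have a3 := congrFun hy k
      simp only [Pi.smul_apply, smul_eq_mul, Function.comp] at a2 a3
      rw [map_mul, map_pow, a3, a2]
    have a2 : (f ᵥ* (J₁ * U')) k ∈ I := by
      simp only [vecMul, dotProduct]
      exact Ideal.sum_mem _ fun i _ => Ideal.mul_mem_right _ _ (hf i)
    obtain ⟨a', b', hab'⟩ := hc.pow_right (n := N4)
    have a3 : y k = a' * t * y k + b' * ((1 + t) ^ N4 * y k) := by
      linear_combination (-y k) * hab'
    change y k ∈ I
    rw [a3, a1]
    exact I.add_mem (Ideal.mul_mem_right _ _ (I.mul_mem_left _ ht)) (I.mul_mem_left _ a2)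
  · have mem : ∀ (M : Matrix (Fin 3) (Fin 3) R) k, (y ᵥ* M) k ∈ Ideal.span (Set.range y) := by
      intro M k
      simp only [vecMul, dotProduct]
      exact Ideal.sum_mem _ fun i _ =>
        Ideal.mul_mem_right _ _ (Ideal.subset_span (Set.mem_range_self i))
    have b1 : t ^ N1 ∈ Ideal.span (Set.range y) := by
      have : t ^ N1 = (y ᵥ* (V' * I₀)) 0 := by
        apply hι
        have c1 := congrFun (mapv y (V' * I₀)) 0
        rw [Matrix.map_mul, ← hI₀, Matrix.mul_smul, vecMul_smul, hy] at c1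
        simp only [w] at c1
        rw [vecMul_vecMul, hW1, vecMul_one] at c1
        simpa using c1
      rw [this]; exact mem _ _
    have b2 : ∀ i, (1 + t) ^ N3 * f i ∈ Ideal.span (Set.range y) := by
      intro i
      have : (1 + t) ^ N3 * f i = (y ᵥ* (V' * I₁)) i := by
        apply hι
        have c1 := congrFun (mapv y (V' * I₁)) i
        have c2 : G * Jm * U'.map ι * (V'.map ι * (Im * G')) = 1 := by
          calc G * Jm * U'.map ι * (V'.map ι * (Im * G'))
              = G * ((Jm * U'.map ι) * (V'.map ι * Im)) * G' := by simp only [Matrix.mul_assoc]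
            _ = 1 := by rw [hW1, Matrix.mul_one, h1]
        rw [Matrix.map_mul, ← hI₁, Matrix.mul_smul, vecMul_smul, hy, hw, vecMul_vecMul, c2,
          vecMul_one] at c1
        simpa using c1
      rw [this]; exact mem _ _
    obtain ⟨c, hcg⟩ := Ideal.mem_span_range_iff_exists_fun.1 (hI g hg)
    have b3 : (1 + t) ^ (N3 + 1) * g ∈ Ideal.span (Set.range y) := by
      rw [pow_succ, mul_assoc, ← hcg, Finset.mul_sum]
      refine Ideal.sum_mem _ fun i _ => ?_
      rw [mul_left_comm]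
      exact Ideal.mul_mem_left _ _ (b2 i)
    obtain ⟨a', b', hab'⟩ := hc.pow (m := N1) (n := N3 + 1)
    have b4 : g = a' * g * t ^ N1 + b' * ((1 + t) ^ (N3 + 1) * g) := by
      linear_combination (-g) * hab'
    rw [b4]
    exact Ideal.add_mem _ (Ideal.mul_mem_left _ _ b1) (Ideal.mul_mem_left _ _ b3)

theorem patch_quad {A : Type} [CommRing A] [IsDomain A] (hA : BQ.IdemFree A[X])
    (I : Ideal A[X]) (b u1 v1 u2 v2 s : A)
    (hf : ∀ i, ![X ^ 2 - C b, C u1 + C v1 * X, C u2 + C v2 * X] i ∈ I) (hs : C s ∈ I)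
    (hI : ∀ g ∈ I, (1 + C s) * g ∈
      Ideal.span (Set.range ![X ^ 2 - C b, C u1 + C v1 * X, C u2 + C v2 * X])) :
    ∃ f' : Fin 3 → A[X], Ideal.span (Set.range f') = I := by
  by_cases h0 : s = 0
  · refine ⟨![X ^ 2 - C b, C u1 + C v1 * X, C u2 + C v2 * X],
      le_antisymm (Ideal.span_le.2 ?_) fun g hg => ?_⟩
    · rintro _ ⟨i, rfl⟩
      exact hf i
    · have := hI g hg
      rwa [h0, map_zero, add_zero, one_mul] at this
  by_cases h1 : 1 + s = 0
  · refine ⟨fun _ => C s, le_antisymm (Ideal.span_le.2 ?_) fun g _ => ?_⟩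
    · rintro _ ⟨i, rfl⟩
      exact hs
    · have : g = (-g) * C s := by
        have := congrArg (C : A →+* A[X]) h1
        simp only [map_add, map_one, map_zero] at this
        linear_combination g * this
      rw [this]
      exact Ideal.mul_mem_left _ _ (Ideal.subset_span ⟨0, rfl⟩)
  have hne : s * (1 + s) ≠ 0 := mul_ne_zero h0 h1
  let L := Localization.Away (s * (1 + s))
  have hle : Submonoid.powers (s * (1 + s)) ≤ nonZeroDivisors A :=
    powers_le_nonZeroDivisors_of_noZeroDivisors hne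
  have hinj : Function.Injective (algebraMap A L) := IsLocalization.injective L hle
  have : Nontrivial L := hinj.nontrivial
  let φ : A →+* L := algebraMap A L
  obtain ⟨g0, p1, q1, p2, q2, e2, e1, e0⟩ := three_eqs b u1 v1 u2 v2 (s * (1 + s)) (by
    have := hI _ hs
    simpa only [map_mul, map_add, map_one, mul_comm] using this)
  obtain ⟨κ, hκ⟩ := (IsLocalization.Away.algebraMap_isUnit (S := L) (s * (1 + s))).exists_right_inv
  have e2' := congrArg φ e2
  have e1' := congrArg φ e1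
  have e0' := congrArg φ e0
  simp only [map_add φ, map_mul φ, map_zero φ, map_neg φ, map_one φ] at e2' e1' e0'
  have hκ' : φ s * (1 + φ s) * κ = 1 := by
    simpa only [map_add, map_mul, map_one] using hκ
  obtain ⟨G, G', hG1, hG2, hG3⟩ := quad_row (φ b) (φ u1) (φ v1) (φ u2) (φ v2) (φ g0 * κ)
    (φ p1 * κ) (φ q1 * κ) (φ p2 * κ) (φ q2 * κ) (by linear_combination κ * e2')
    (by linear_combination κ * e1') (by linear_combination κ * e0' + hκ')
  refine patch_gen hA (mapRingHom φ) (Polynomial.map_injective φ hinj) (C s) ?_ I _ hf hs hI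
    G G' hG1 hG2 ?_
  · intro M
    have hp : ∀ p : L[X], ∃ (N : ℕ) (p₀ : A[X]),
        (mapRingHom φ (C s * (1 + C s))) ^ N * p = mapRingHom φ p₀ := by
      intro p
      obtain ⟨_, ⟨N, rfl⟩, hN⟩ :=
        IsLocalization.integerNormalization_spec (Submonoid.powers (s * (1 + s))) p
      refine ⟨N, _, Eq.trans ?_ hN.symm⟩
      simp only [Algebra.smul_def, coe_mapRingHom, map_C,
        Polynomial.algebraMap_apply, map_pow, map_mul, map_add, map_one, φ]
    refine BQ.matrix_den _ _ M fun i j => ?_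
    obtain ⟨N, p₀, hN⟩ := hp (M i j)
    refine ⟨N, fun K hK => ⟨(C s * (1 + C s)) ^ (K - N) * p₀, ?_⟩⟩
    rw [map_mul (mapRingHom φ) _ p₀, ← hN, map_pow, ← mul_assoc, ← pow_add,
      Nat.sub_add_cancel hK]
  · rw [← hG3]
    congr 1
    funext i
    fin_cases i <;> simp

end Pool.Agent.H798Z.CI
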