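import Mathlib
import Pool.Agent.H798Z.CI.Grad
import Pool.Agent.H798Z.CI.Elem
import Pool.Agent.H798Z.CI.Patch

/-!
Three generators in the normal form.
-/

set_option autoImplicit false

namespace Pool.Agent.H798Z.CI

open Polynomial Matrix

/-- the map `A[T] → B` sending `T` to `t` -/
noncomputable def al (π : AA →ₐ[ℂ] BB) (t : BB) : AA[X] →+* BB := eval₂RingHom (π : AA →+* BB) t

@[simp] theorem al_C (π : AA →ₐ[ℂ] BB) (t : BB) (a : AA) : al π t (C a) = π a := by simp [al]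

@[simp] theorem al_X (π : AA →ₐ[ℂ] BB) (t : BB) : al π t X = t := by simp [al]

theorem first_gens (π : AA →ₐ[ℂ] BB) (b u0 v0 : AA) (κ : Fin 4 → BB)
    (hb : π b = MvPolynomial.X 0 ^ 2)
    (hz : π u0 + π v0 * MvPolynomial.X 0 = MvPolynomial.X 1)
    (hκ : ∑ j, π (MvPolynomial.pderiv j b) * κ j = 1) :
    ∃ f2 ∈ RingHom.ker (al π (MvPolynomial.X 0)), ∃ f3 ∈ RingHom.ker (al π (MvPolynomial.X 0)),
      ∀ g ∈ RingHom.ker (al π (MvPolynomial.X 0)), ∃ r1 r2 r3,
        g - (r1 * (X ^ 2 - C b) + r2 * f2 + r3 * f3) ∈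
          RingHom.ker (al π (MvPolynomial.X 0)) * RingHom.ker (al π (MvPolynomial.X 0)) := by
  classical
  set y : BB := MvPolynomial.X 0 with hy
  set I := RingHom.ker (al π y) with hI
  let s : BB →ₐ[ℂ] AA[X] := MvPolynomial.aeval ![X, C u0 + C v0 * X]
  have sy : s y = X := by simp [s, hy]
  have sz : s (MvPolynomial.X 1) = C u0 + C v0 * X := by simp [s]
  have sC : ∀ c : ℂ, s (MvPolynomial.C c) = C (MvPolynomial.C c) := by
    intro c; simp [s]
  have hs : ∀ x, al π y (s x) = x := by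
    intro x
    induction x using MvPolynomial.induction_on with
    | C a => rw [sC, al_C, MvPolynomial.algHom_C]; rfl
    | add p q hp hq => rw [map_add, map_add, hp, hq]
    | mul_X q j hq =>
      rw [map_mul, map_mul, hq]
      congr 1
      fin_cases j
      · exact (congrArg _ sy).trans (al_X _ _)
      · exact (congrArg _ sz).trans (by simpa using hz)
  have mI : ∀ a : AA, C a - s (π a) ∈ I := fun a => by
    simp [hI, RingHom.mem_ker, hs]
  let e : Fin 4 → AA[X] := fun j => C (MvPolynomial.X j) - s (π (MvPolynomial.X j))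
  let ρ : (Fin 4 → BB) → AA[X] := fun ω => ∑ j, s (ω j) * e j
  have ρI : ∀ ω, ρ ω ∈ I := fun ω => I.sum_mem fun j _ => I.mul_mem_left _ (mI _)
  have ρadd : ∀ ω ω', ρ (ω + ω') = ρ ω + ρ ω' := by
    intro ω ω'; simp [ρ, add_mul, Finset.sum_add_distrib]
  have ρsmul : ∀ (c : BB) ω, ρ (c • ω) = s c * ρ ω := by
    intro c ω; simp [ρ, Finset.mul_sum, mul_assoc]
  let gr : AA → Fin 4 → BB := fun a j => π (MvPolynomial.pderiv j a)
  have taylor : ∀ a : AA, C a - s (π a) - ρ (gr a) ∈ I * I := by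
    intro a
    induction a using MvPolynomial.induction_on with
    | C c =>
      have : gr (MvPolynomial.C c) = 0 := by funext j; simp [gr]
      rw [this, MvPolynomial.algHom_C, show algebraMap ℂ BB c = MvPolynomial.C c from rfl, sC]
      simp [ρ]
    | add p q hp hq =>
      have : gr (p + q) = gr p + gr q := by funext j; simp [gr]
      rw [this, ρadd, map_add, map_add, map_add]
      convert Ideal.add_mem _ hp hq using 1
      ring
    | mul_X q j hq =>
      have h1 : gr (q * MvPolynomial.X j) =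
          π (MvPolynomial.X j) • gr q + π q • (Pi.single j 1 : Fin 4 → BB) := by
        funext l
        by_cases h : j = l
        · subst h; simp [gr, Derivation.leibniz, MvPolynomial.pderiv_X]; ring
        · simp [gr, Derivation.leibniz, MvPolynomial.pderiv_X, h, Ne.symm h]
      have h2 : ρ (Pi.single j 1) = e j := by
        simp only [ρ]
        rw [Finset.sum_eq_single j] <;> simp +contextual
      rw [h1, ρadd, ρsmul, ρsmul, h2, map_mul, map_mul, map_mul]
      have h3 : C q * C (MvPolynomial.X j) - s (π q) * s (π (MvPolynomial.X j)) -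
          (s (π (MvPolynomial.X j)) * ρ (gr q) + s (π q) * e j) =
          s (π (MvPolynomial.X j)) * (C q - s (π q) - ρ (gr q)) + (C q - s (π q)) * e j := by
        simp only [e]; ring
      rw [h3]
      exact Ideal.add_mem _ (Ideal.mul_mem_left _ _ hq) (Ideal.mul_mem_mul (mI _) (mI _))
  have all : ∀ g : AA[X], ∃ ω, g - s (al π y g) - ρ ω ∈ I * I := by
    intro g
    induction g using Polynomial.induction_on with
    | C a => exact ⟨gr a, by rw [al_C]; exact taylor a⟩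
    | add p q hp hq =>
      obtain ⟨ω, hp⟩ := hp
      obtain ⟨ω', hq⟩ := hq
      refine ⟨ω + ω', ?_⟩
      rw [ρadd, map_add, map_add]
      convert Ideal.add_mem _ hp hq using 1
      ring
    | monomial n a h =>
      obtain ⟨ω, h⟩ := h
      refine ⟨y • ω, ?_⟩
      rw [pow_succ, ← mul_assoc, map_mul _ _ X, al_X, map_mul s, ρsmul, sy]
      convert Ideal.mul_mem_left _ X h using 1
      ring
  let η : Fin 4 → BB := gr u0 + y • gr v0
  have hη : ρ η ∈ I * I := by
    have h1 := Ideal.add_mem _ (taylor u0) (Ideal.mul_mem_left _ X (taylor v0))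
    have h2 := congrArg s hz
    rw [map_add, map_mul, sy, sz] at h2
    simp only [η]
    rw [ρadd, ρsmul, sy]
    convert Submodule.neg_mem _ h1 using 1
    linear_combination -h2
  have hω : X ^ 2 - C b + ρ (gr b) ∈ I * I := by
    have h1 := taylor b
    rw [hb, map_pow, sy] at h1
    convert Submodule.neg_mem _ h1 using 1
    ring
  let τ : Fin 4 → BB := fun j => MvPolynomial.pderiv 1 (π (MvPolynomial.X j))
  have dzy : MvPolynomial.pderiv 1 y = 0 := by simp [hy, MvPolynomial.pderiv_X]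
  have c1 : ∀ a, ∑ j, gr a j * τ j = MvPolynomial.pderiv 1 (π a) := fun a =>
    (chain π (MvPolynomial.pderiv 1) a).symm
  have d1 : ∑ j, η j * τ j = 1 := by
    have h1 := congrArg (MvPolynomial.pderiv 1) hz
    rw [map_add, Derivation.leibniz, dzy] at h1
    simp only [η, Pi.add_apply, Pi.smul_apply, smul_eq_mul, add_mul, Finset.sum_add_distrib,
      mul_assoc, ← Finset.mul_sum, c1]
    simpa [MvPolynomial.pderiv_X] using h1
  have d2 : ∑ j, gr b j * τ j = 0 := by
    rw [c1, hb, Derivation.leibniz_pow, dzy]; simp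
  have d3 : ∑ j, gr b j * κ j = 1 := hκ
  let M : Matrix (Fin 2) (Fin 4) BB := Matrix.of ![η, gr b]
  let N : Matrix (Fin 4) (Fin 2) BB :=
    Matrix.of fun j => ![τ j, κ j - τ j * ∑ l, η l * κ l]
  have hMN : M * N = 1 := by
    ext1 a c
    fin_cases a <;> fin_cases c <;>
      simp [M, N, Matrix.mul_apply, mul_sub, Finset.sum_sub_distrib, ← mul_assoc, ← Finset.sum_mul,
        d1, d2, d3]
  obtain ⟨U', V', hUV, -⟩ := complete24 idemFree_BB M N hMN
  refine ⟨ρ (V' 0), ρI _, ρ (V' 1), ρI _, fun g hg => ?_⟩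
  obtain ⟨ω, h⟩ := all g
  rw [RingHom.mem_ker.1 hg, map_zero, sub_zero] at h
  have h1 : ω = (ω ᵥ* N) 0 • η + (ω ᵥ* N) 1 • gr b + (ω ᵥ* U') 0 • V' 0 + (ω ᵥ* U') 1 • V' 1 := by
    have h2 : ω = (ω ᵥ* N) ᵥ* M + (ω ᵥ* U') ᵥ* V' := by
      rw [vecMul_vecMul, vecMul_vecMul, ← vecMul_add, hUV]; simp
    funext l
    conv_lhs => rw [h2]
    generalize ω ᵥ* N = x
    generalize ω ᵥ* U' = x'
    simp only [vecMul, dotProduct, Fin.sum_univ_two, M, Pi.add_apply, Pi.smul_apply, smul_eq_mul,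
      Matrix.of_apply, Matrix.cons_val_zero, Matrix.cons_val_one]
    ring
  refine ⟨-s ((ω ᵥ* N) 1), s ((ω ᵥ* U') 0), s ((ω ᵥ* U') 1), ?_⟩
  have h3 := congrArg ρ h1
  rw [ρadd, ρadd, ρadd, ρsmul, ρsmul, ρsmul, ρsmul] at h3
  convert Ideal.add_mem _ (Ideal.add_mem _ h (Ideal.mul_mem_left _ (s ((ω ᵥ* N) 0)) hη))
    (Ideal.mul_mem_left _ (s ((ω ᵥ* N) 1)) hω) using 1
  linear_combination h3

theorem normal_gens (π : AA →ₐ[ℂ] BB) (hsurj : Function.Surjective (al π (MvPolynomial.X 0)))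
    (b0 : AA) (hb0 : π b0 = MvPolynomial.X 0 ^ 2) (g h0 : ℂ[X]) (hne : h0 ≠ 0)
    (hcop : IsCoprime h0 g) (hw : ∀ x, ∃ a, π a = (MvPolynomial.X 0 - sg g) * x)
    (hh : ∀ x, ∃ a, π a = sg h0 * x) :
    ∃ f : Fin 3 → AA[X], Ideal.span (Set.range f) = RingHom.ker (al π (MvPolynomial.X 0)) := by
  classical
  set y : BB := MvPolynomial.X 0 with hy
  set I := RingHom.ker (al π y) with hI
  have y0 : y ≠ 0 := MvPolynomial.X_ne_zero 0
  have two : (2 : BB) ≠ 0 := two_ne_zero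
  have half : (MvPolynomial.C (1 / 2 : ℂ) : AA) * 2 = 1 := by
    rw [show (2 : AA) = MvPolynomial.C 2 from rfl, ← map_mul]; norm_num
  let c : Ideal BB :=
    { carrier := {v | ∀ x, ∃ a, π a = v * x}
      add_mem' := fun {u v} hu hv x => by
        obtain ⟨a, ha⟩ := hu x
        obtain ⟨a', ha'⟩ := hv x
        exact ⟨a + a', by rw [map_add, ha, ha', add_mul]⟩
      zero_mem' := fun x => ⟨0, by simp⟩
      smul_mem' := fun r v hv x => by
        obtain ⟨a, ha⟩ := hv (r * x)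
        exact ⟨a, by rw [ha, smul_eq_mul]; ring⟩ }
  have hmod : ∀ x : BB, ∃ u v, π u + π v * y = x := by
    intro x
    obtain ⟨r, rfl⟩ := hsurj x
    obtain ⟨p, q, r', rfl⟩ := quad_div b0 r
    exact ⟨p, q, by simp [hb0]⟩
  obtain ⟨u0, v0, hz⟩ := hmod (MvPolynomial.X 1)
  obtain ⟨s0, t0, hst⟩ := hcop
  have he : sg s0 * sg h0 - sg t0 * (y - sg g) ∈ c :=
    c.sub_mem (c.mul_mem_left _ hh) (c.mul_mem_left _ hw)
  have he1 : sg s0 * sg h0 - sg t0 * (y - sg g) = 1 - sg t0 * y := by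
    have := congrArg sg hst
    simp only [map_add, map_mul, map_one] at this
    linear_combination this
  rw [he1] at he
  obtain ⟨V, hV⟩ := he 1
  rw [mul_one] at hV
  obtain ⟨U, hU⟩ := he y
  obtain ⟨b, κ, hb, hκ⟩ := exists_unimod π b0 u0 v0 V U (sg t0) hb0 hz hV (hV ▸ hU) (hV ▸ he)
  obtain ⟨f2, hf2, f3, hf3, hgen⟩ := first_gens π b u0 v0 κ hb hz hκ
  rw [← hy] at hb
  have surj' : ∀ x : BB, ∃ r, al π (-y) r = x := by
    intro x
    obtain ⟨u, v, rfl⟩ := hmod x
    exact ⟨C u - C v * X, by simp⟩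
  have hf1 : X ^ 2 - C b ∈ I := by simp [hI, RingHom.mem_ker, hb]
  have hf1' : al π (-y) (X ^ 2 - C b) = 0 := by simp [hb]
  have toc : ∀ r ∈ I, ∃ v ∈ c, al π (-y) r = y * v := by
    intro r hr
    obtain ⟨p, q, r', rfl⟩ := quad_div b r
    have h1 : π p + π q * y = 0 := by simpa [hI, RingHom.mem_ker, hb] using hr
    refine ⟨-2 * π q, c.mul_mem_left _ fun x => ?_, ?_⟩
    · obtain ⟨u, v, rfl⟩ := hmod x
      exact ⟨q * u - p * v, by simp only [map_sub, map_mul]; linear_combination (-π v) * h1⟩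
    · rw [map_add, map_mul _ _ r', hf1']
      simp only [map_add, map_mul, al_C, al_X]
      linear_combination h1
  have ofc : ∀ v ∈ c, ∃ r ∈ I, al π (-y) r = y * v := by
    intro v hv
    obtain ⟨v', hv'⟩ := hv 1
    obtain ⟨u', hu'⟩ := hv y
    have h2 := congrArg π half
    rw [map_mul, map_ofNat, map_one] at h2
    refine ⟨C (MvPolynomial.C (1 / 2 : ℂ)) * (C u' - C v' * X), I.mul_mem_left _ ?_, ?_⟩
    · simp [hI, RingHom.mem_ker, hv', hu']
    · simp only [map_mul, map_sub, al_C, al_X, hv', hu']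
      linear_combination (v * y) * h2
  have toc2 : ∀ r ∈ I * I, ∃ n ∈ c * c, al π (-y) r = y * (y * n) := by
    intro r hr
    refine Submodule.mul_induction_on hr (fun a ha b hb => ?_) ?_
    · obtain ⟨v, hv, e1⟩ := toc a ha
      obtain ⟨v', hv', e2⟩ := toc b hb
      exact ⟨v * v', Ideal.mul_mem_mul hv hv', by rw [map_mul, e1, e2]; ring⟩
    · rintro a b ⟨n, hn, e1⟩ ⟨n', hn', e2⟩
      exact ⟨n + n', Ideal.add_mem _ hn hn', by rw [map_add, e1, e2]; ring⟩
  have ofc2 : ∀ n ∈ c * c, ∃ r ∈ I * I, al π (-y) r = y * (y * n) := by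
    intro n hn
    refine Submodule.mul_induction_on hn (fun a ha b hb => ?_) ?_
    · obtain ⟨v, hv, e1⟩ := ofc a ha
      obtain ⟨v', hv', e2⟩ := ofc b hb
      exact ⟨v * v', Ideal.mul_mem_mul hv hv', by rw [map_mul, e1, e2]; ring⟩
    · rintro a b ⟨n, hn, e1⟩ ⟨n', hn', e2⟩
      exact ⟨n + n', Ideal.add_mem _ hn hn', by rw [map_add, e1, e2]; ring⟩
  let P : BB → BB → Prop := fun c2 c3 => ∃ f2 ∈ I, ∃ f3 ∈ I,
    (∀ g ∈ I, ∃ r1 r2 r3, g - (r1 * (X ^ 2 - C b) + r2 * f2 + r3 * f3) ∈ I * I) ∧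
      al π (-y) f2 = y * c2 ∧ al π (-y) f3 = y * c3
  obtain ⟨a0, -, ha0⟩ := toc f2 hf2
  obtain ⟨b0', -, hb0'⟩ := toc f3 hf3
  obtain ⟨c2, c3, ⟨g2, hg2, g3, hg3, hG, e2, e3⟩, hc⟩ := elem_main
    ((MvPolynomial.pderiv (0 : Fin 2) : Derivation ℂ BB BB).restrictScalars ℤ)
    (sg : ℂ[X] →+* BB) y g h0 (evc 0 : BB →+* ℂ[X]) (evc g : BB →+* ℂ[X]) (evc_sg 0) (evc_sg g)
    (evc_y 0) (evc_y g) (fun x => by simpa using dvd_evc 0 x) (dvd_evc g) dy_sg
    (MvPolynomial.pderiv_X_self 0) c hw hh hne ⟨s0, t0, hst⟩ P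
    (by
      rintro a b' m ⟨f2, hf2, f3, hf3, hG, e2, e3⟩
      obtain ⟨M, rfl⟩ := surj' m
      refine ⟨f2 + M * f3, I.add_mem hf2 (I.mul_mem_left _ hf3), f3, hf3, fun g hg => ?_, ?_, e3⟩
      · obtain ⟨r1, r2, r3, h⟩ := hG g hg
        refine ⟨r1, r2, r3 - r2 * M, ?_⟩
        convert h using 1
        ring
      · rw [map_add, map_mul, e2, e3]; ring)
    (by
      rintro a b' ⟨f2, hf2, f3, hf3, hG, e2, e3⟩
      refine ⟨f3, hf3, f2, hf2, fun g hg => ?_, e3, e2⟩
      obtain ⟨r1, r2, r3, h⟩ := hG g hg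
      refine ⟨r1, r3, r2, ?_⟩
      convert h using 1
      ring)
    (by
      rintro a b' n hn ⟨f2, hf2, f3, hf3, hG, e2, e3⟩
      obtain ⟨k, hk, ek⟩ := ofc2 n hn
      refine ⟨f2 + k, I.add_mem hf2 (Ideal.mul_le_left hk), f3, hf3, fun g hg => ?_, ?_, e3⟩
      · obtain ⟨r1, r2, r3, h⟩ := hG g hg
        refine ⟨r1, r2, r3, ?_⟩
        convert Ideal.sub_mem _ h (Ideal.mul_mem_left _ r2 hk) using 1
        ring
      · rw [map_add, e2, ek]; ring)
    (by
      rintro a b' ⟨f2, hf2, f3, hf3, hG, e2, e3⟩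
      obtain ⟨v2, hv2, e2'⟩ := toc f2 hf2
      obtain ⟨v3, hv3, e3'⟩ := toc f3 hf3
      refine ⟨mul_left_cancel₀ y0 (e2'.symm.trans e2) ▸ hv2,
        mul_left_cancel₀ y0 (e3'.symm.trans e3) ▸ hv3, fun x hx => ?_⟩
      obtain ⟨r, hr, er⟩ := ofc x hx
      obtain ⟨r1, r2, r3, h⟩ := hG r hr
      obtain ⟨n, hn, en⟩ := toc2 _ h
      refine ⟨al π (-y) r2, al π (-y) r3, n, hn, mul_left_cancel₀ y0 ?_⟩
      rw [map_sub, map_add, map_add, map_mul, map_mul, map_mul, hf1', e2, e3, er] at en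
      linear_combination en)
    a0 b0' ⟨f2, hf2, f3, hf3, hgen, ha0, hb0'⟩
  obtain ⟨u1, v1, k1, hk1⟩ := quad_div b g2
  obtain ⟨u2, v2, k2, hk2⟩ := quad_div b g3
  let f : Fin 3 → AA[X] := ![X ^ 2 - C b, C u1 + C v1 * X, C u2 + C v2 * X]
  let F : Ideal AA[X] := Ideal.span (Set.range f)
  have m1 : X ^ 2 - C b ∈ F := Ideal.subset_span ⟨0, rfl⟩
  have m2 : g2 ∈ F := by
    rw [hk1]; exact F.add_mem (Ideal.subset_span ⟨1, rfl⟩) (F.mul_mem_right _ m1)
  have m3 : g3 ∈ F := by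
    rw [hk2]; exact F.add_mem (Ideal.subset_span ⟨2, rfl⟩) (F.mul_mem_right _ m1)
  have hfI : ∀ i, f i ∈ I := by
    intro i
    fin_cases i
    · exact hf1
    · have := I.sub_mem hg2 (I.mul_mem_right k1 hf1)
      rw [hk1, add_sub_cancel_right] at this
      exact this
    · have := I.sub_mem hg3 (I.mul_mem_right k2 hf1)
      rw [hk2, add_sub_cancel_right] at this
      exact this
  let J : Ideal AA := RingHom.ker π
  have step1 : ∀ r ∈ I, ∃ p ∈ J, ∃ q ∈ J, r - (C p + C q * X) ∈ F := by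
    intro r hr
    obtain ⟨v, hv, ev⟩ := toc r hr
    obtain ⟨p', q', rfl⟩ := hc v hv
    obtain ⟨M2, rfl⟩ := surj' p'
    obtain ⟨M3, rfl⟩ := surj' q'
    obtain ⟨p, q, k, hk⟩ := quad_div b (r - M2 * g2 - M3 * g3)
    have i1 : al π y (r - M2 * g2 - M3 * g3) = 0 :=
      I.sub_mem (I.sub_mem hr (I.mul_mem_left _ hg2)) (I.mul_mem_left _ hg3)
    have i2 : al π (-y) (r - M2 * g2 - M3 * g3) = 0 := by
      rw [map_sub, map_sub, map_mul, map_mul, ev, e2, e3]; ring
    rw [hk] at i1 i2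
    simp only [map_add, map_mul, map_sub, map_pow, al_C, al_X, hb] at i1 i2
    refine ⟨p, mul_left_cancel₀ two (by linear_combination i1 + i2), q,
      mul_left_cancel₀ (mul_ne_zero two y0) (by linear_combination i1 - i2), ?_⟩
    rw [show r - (C p + C q * X) = M2 * g2 + M3 * g3 + (X ^ 2 - C b) * k by linear_combination hk]
    exact F.add_mem (F.add_mem (F.mul_mem_left _ m2) (F.mul_mem_left _ m3)) (F.mul_mem_right _ m1)
  let N' : Submodule AA AA[X] := I.restrictScalars AA ⊓ Submodule.span AA {1, X}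
  have hN' : N'.FG :=
    Submodule.FG.of_le (Submodule.fg_span (Set.toFinite _)) inf_le_right
  have step2 : ∀ p ∈ J, ∀ r ∈ I, C p * r ∈ F.restrictScalars AA ⊔ J • N' := by
    intro p hp r hr
    obtain ⟨u, v, k, hk⟩ := quad_div b r
    have h1 : C u + C v * X ∈ N' := by
      refine ⟨?_, Submodule.mem_span_pair.2 ⟨u, v, by simp [smul_eq_C_mul]⟩⟩
      have := I.sub_mem hr (I.mul_mem_right k hf1)
      rw [hk, add_sub_cancel_right] at this
      exact this
    rw [hk, mul_add, add_comm]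
    refine Submodule.add_mem_sup (F.mul_mem_left _ (F.mul_mem_right _ m1)) ?_
    rw [← smul_eq_C_mul]
    exact Submodule.smul_mem_smul hp h1
  have step3 : ∀ r ∈ I * I, r ∈ F.restrictScalars AA ⊔ J • N' := by
    intro r hr
    refine Submodule.mul_induction_on hr (fun a ha a' ha' => ?_) fun a a' => Submodule.add_mem _
    obtain ⟨p, hp, q, hq, h⟩ := step1 a ha
    rw [show a * a' = (a - (C p + C q * X)) * a' + C p * a' + C q * (X * a') by ring]
    exact Submodule.add_mem _ (Submodule.add_mem _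
      (Submodule.mem_sup_left (F.mul_mem_right _ h)) (step2 p hp _ ha'))
      (step2 q hq _ (I.mul_mem_left _ ha'))
  obtain ⟨r, hr1, hr2⟩ := Submodule.exists_sub_one_mem_and_smul_le_of_fg_of_le_sup
    (I := J) (N := F.restrictScalars AA) (P := I.restrictScalars AA) hN' inf_le_left (by
      intro r hr
      obtain ⟨r1, r2, r3, h⟩ := hG r hr
      rw [← sub_add_cancel r (r1 * (X ^ 2 - C b) + r2 * g2 + r3 * g3)]
      exact Submodule.add_mem _ (step3 _ h) (Submodule.mem_sup_left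
        (F.add_mem (F.add_mem (F.mul_mem_left _ m1) (F.mul_mem_left _ m2)) (F.mul_mem_left _ m3))))
  refine patch_quad idemFree_RR I b u1 v1 u2 v2 (r - 1) hfI ?_ fun k hk => ?_
  · rw [hI, RingHom.mem_ker, al_C]; exact hr1
  · have := hr2 (Submodule.smul_mem_pointwise_smul k r (I.restrictScalars AA) hk)
    rw [smul_eq_C_mul] at this
    rw [map_sub, map_one, add_sub_cancel]
    exact this

end Pool.Agent.H798Z.CI
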