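import Mathlib
import Pool.Agent.H798Z.CI.Normal

/-!
Transverse double points: the image ring consists of the functions constant on fibres.
-/

set_option autoImplicit false

namespace Pool.Agent.H798Z.CI

open MvPolynomial

theorem taylor_pt {ι : Type} [Fintype ι] (p : ι → ℂ) (g : MvPolynomial ι ℂ) :
    g - C (eval p g) - ∑ i, C (eval p (pderiv i g)) * (X i - C (p i)) ∈
      RingHom.ker (eval p) * RingHom.ker (eval p) := by
  classical
  induction g using MvPolynomial.induction_on with
  | C a => simp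
  | add f g hf hg =>
    convert Ideal.add_mem _ hf hg using 1
    simp only [map_add, add_mul, Finset.sum_add_distrib]
    ring
  | mul_X q j hq =>
    have h1 : q - C (eval p q) ∈ RingHom.ker (eval p) := by simp [RingHom.mem_ker]
    have h2 : X j - C (p j) ∈ RingHom.ker (eval p) := by simp [RingHom.mem_ker]
    convert Ideal.add_mem _ (Ideal.mul_mem_left _ (C (p j)) hq) (Ideal.mul_mem_mul h1 h2) using 1
    have h3 : ∑ i, C (eval p (pderiv i (q * X j))) * (X i - C (p i)) =
        C (eval p q) * (X j - C (p j)) +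
          C (p j) * ∑ i, C (eval p (pderiv i q)) * (X i - C (p i) : MvPolynomial ι ℂ) := by
      simp only [Derivation.leibniz, pderiv_X, smul_eq_mul, map_add, map_mul, add_mul,
        Finset.sum_add_distrib, Finset.mul_sum, eval_X]
      congr 1
      · rw [Finset.sum_eq_single j]
        · simp
        · intro i _ hi
          simp [hi.symm]
        · simp
      · exact Finset.sum_congr rfl fun i _ => by ring
    rw [h3, map_mul, eval_X, map_mul]
    ring

theorem exists_sep {ι : Type} (S : Finset (ι → ℂ)) (p : ι → ℂ) (hp : p ∉ S) :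
    ∃ g : MvPolynomial ι ℂ, eval p g ≠ 0 ∧ ∀ r ∈ S, eval r g = 0 := by
  classical
  induction S using Finset.induction with
  | empty => exact ⟨1, by simp, by simp⟩
  | insert r S _ ih =>
    rw [Finset.mem_insert, not_or] at hp
    obtain ⟨g, h1, h2⟩ := ih hp.2
    obtain ⟨i, hi⟩ := Function.ne_iff.1 hp.1
    refine ⟨g * (X i - C (r i)), by simp [h1, sub_eq_zero, hi], fun r' hr' => ?_⟩
    rcases Finset.mem_insert.1 hr' with rfl | h
    · simp
    · simp [h2 r' h]

theorem eval_comp (π : AA →ₐ[ℂ] BB) (p : Fin 2 → ℂ) (a : AA) :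
    eval p (π a) = eval (fun j => eval p (π (X j))) a := by
  induction a using MvPolynomial.induction_on with
  | C a => simp [algHom_C]
  | add f g hf hg => simp only [map_add, hf, hg]
  | mul_X q j hq => simp only [map_mul, hq, eval_X]

/-- the fibre over `x` -/
def fib (π : AA →ₐ[ℂ] BB) (x : Fin 4 → ℂ) : Set (Fin 2 → ℂ) :=
  {p | (fun j => eval p (π (X j))) = x}

theorem local_lemma (π : AA →ₐ[ℂ] BB) (hfin : (π : AA →+* BB).Finite) (x : Fin 4 → ℂ)
    (hS : (fib π x).Finite)
    (hT : ∀ g : BB, ∃ ξ : Fin 4 → ℂ, ∀ p ∈ fib π x, ∀ i,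
      eval p (pderiv i g) = ∑ j, ξ j * eval p (pderiv i (π (X j)))) :
    ∃ s : AA, eval x s ≠ 0 ∧ ∀ g : BB, (∀ p ∈ fib π x, eval p g = 0) → ∃ a, π a = π s * g := by
  classical
  let _ : Algebra AA BB := (π : AA →+* BB).toAlgebra
  have hal : ∀ a, algebraMap AA BB a = π a := fun a => rfl
  have : Module.Finite AA BB := hfin
  let m : Ideal AA := RingHom.ker (eval x)
  let n : Ideal BB := ∏ p ∈ hS.toFinset, RingHom.ker (eval p)
  have hmax : ∀ p : Fin 2 → ℂ, (RingHom.ker (eval p : BB →+* ℂ)).IsMaximal := fun p =>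
    RingHom.ker_isMaximal_of_surjective _ fun c => ⟨C c, eval_C _⟩
  have hco : ∀ p q : Fin 2 → ℂ, p ≠ q →
      IsCoprime (RingHom.ker (eval p : BB →+* ℂ)) (RingHom.ker (eval q)) := by
    intro p q hpq
    have := hmax p
    have := hmax q
    apply Ideal.isCoprime_of_isMaximal
    intro h
    apply hpq
    funext i
    have h1 : X i - C (q i) ∈ RingHom.ker (eval q : BB →+* ℂ) := by simp [RingHom.mem_ker]
    rw [← h] at h1
    simpa [RingHom.mem_ker, sub_eq_zero] using h1
  have hn : ∀ g, g ∈ n ↔ ∀ p ∈ fib π x, eval p g = 0 := by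
    intro g
    simp only [n]
    rw [Ideal.prod_eq_iInf_of_pairwise_isCoprime fun p _ q _ hpq => hco p q hpq]
    simp [Submodule.mem_iInf, RingHom.mem_ker]
  have hn2 : ∀ g : BB, (∀ p ∈ fib π x, g ∈ RingHom.ker (eval p) * RingHom.ker (eval p)) →
      g ∈ n * n := by
    intro g hg
    simp only [n]
    rw [← Finset.prod_mul_distrib, Ideal.prod_eq_iInf_of_pairwise_isCoprime fun p _ q _ hpq =>
      ((hco p q hpq).mul_left (hco p q hpq)).mul_right ((hco p q hpq).mul_left (hco p q hpq))]
    simpa [Submodule.mem_iInf] using hg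
  have h1 : ∀ g ∈ n, ∃ a ∈ m, g - π a ∈ n * n := by
    intro g hg
    obtain ⟨ξ, hξ⟩ := hT g
    refine ⟨∑ j, C (ξ j) * (X j - C (x j)), by simp [m, RingHom.mem_ker], hn2 _ fun p hp => ?_⟩
    have t := taylor_pt p (g - π (∑ j, C (ξ j) * (X j - C (x j))))
    have e1 : eval p (g - π (∑ j, C (ξ j) * (X j - C (x j)))) = 0 := by
      rw [map_sub, (hn g).1 hg p hp, eval_comp, show (fun j => eval p (π (X j))) = x from hp]
      simp
    have e2 : ∀ i, eval p (pderiv i (g - π (∑ j, C (ξ j) * (X j - C (x j))))) = 0 := by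
      intro i
      rw [Derivation.map_sub, map_sub, hξ p hp i, sub_eq_zero]
      simp [algHom_C]
    simpa only [e1, e2, map_zero, zero_mul, Finset.sum_const_zero, sub_zero] using t
  have h2 : n ≤ m.map (algebraMap AA BB) := by
    have r1 : n ≤ (m.map (algebraMap AA BB)).radical := by
      rw [← vanishingIdeal_zeroLocus_eq_radical (K := ℂ)]
      intro g hg p hp
      rw [aeval_eq_eval]
      refine (hn g).1 hg p (funext fun j => ?_)
      have := hp _ (Ideal.mem_map_of_mem (algebraMap AA BB)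
        (show X j - C (x j) ∈ m by simp [m, RingHom.mem_ker]))
      rw [aeval_eq_eval, hal] at this
      simpa [algHom_C, sub_eq_zero] using this
    obtain ⟨N, hN⟩ := Ideal.exists_pow_le_of_le_radical_of_fg r1 (IsNoetherian.noetherian n)
    have r0 : n ≤ m.map (algebraMap AA BB) ⊔ n * n := by
      intro g hg
      obtain ⟨a, ha, h⟩ := h1 g hg
      rw [← add_sub_cancel (π a) g]
      exact Submodule.add_mem_sup (Ideal.mem_map_of_mem (algebraMap AA BB) ha) h
    have r2 : ∀ k, n ≤ m.map (algebraMap AA BB) ⊔ n ^ (k + 1) := by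
      intro k
      induction k with
      | zero => simp
      | succ k ih =>
        refine r0.trans (sup_le le_sup_left ?_)
        calc n * n ≤ (m.map (algebraMap AA BB) ⊔ n ^ (k + 1)) * n := Ideal.mul_mono_left ih
          _ ≤ _ := by
            rw [Ideal.sup_mul, ← pow_succ]
            exact sup_le_sup_right Ideal.mul_le_left _
    exact (r2 N).trans (sup_le le_rfl ((Ideal.pow_le_pow_right (Nat.le_succ N)).trans hN))
  obtain ⟨r, hr1, hr2⟩ := Submodule.exists_sub_one_mem_and_smul_le_of_fg_of_le_sup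
    (I := m) (N := (1 : Submodule AA BB)) (P := n.restrictScalars AA)
    (N' := n.restrictScalars AA) (IsNoetherian.noetherian _) le_rfl (by
      intro g hg
      obtain ⟨a, -, h⟩ := h1 g hg
      rw [← add_sub_cancel (π a) g, ← Ideal.smul_restrictScalars]
      exact Submodule.add_mem_sup (Submodule.mem_one.2 ⟨a, rfl⟩) (Ideal.mul_mono_left h2 h))
  refine ⟨r, ?_, fun g hg => ?_⟩
  · have : eval x r = 1 := by simpa [m, RingHom.mem_ker, sub_eq_zero] using hr1
    rw [this]; exact one_ne_zero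
  · have := hr2 (Submodule.smul_mem_pointwise_smul g r (n.restrictScalars AA) ((hn g).2 hg))
    obtain ⟨a, ha⟩ := Submodule.mem_one.1 this
    exact ⟨a, by rw [← hal, ha, Algebra.smul_def, hal]⟩

theorem range_eq (π : AA →ₐ[ℂ] BB)
    (hloc : ∀ x, ∃ s : AA, eval x s ≠ 0 ∧
      ∀ g : BB, (∀ p ∈ fib π x, eval p g = 0) → ∃ a, π a = π s * g)
    (g : BB) (hg : ∀ x, ∀ p ∈ fib π x, ∀ q ∈ fib π x, eval p g = eval q g) : ∃ a, π a = g := by
  let K : Ideal AA :=
    { carrier := {s | ∃ a, π a = π s * g}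
      add_mem' := by
        rintro u v ⟨a, ha⟩ ⟨a', ha'⟩
        exact ⟨a + a', by rw [map_add, ha, ha', map_add, add_mul]⟩
      zero_mem' := ⟨0, by simp⟩
      smul_mem' := by
        rintro r v ⟨a, ha⟩
        exact ⟨r * a, by rw [map_mul, ha, smul_eq_mul, map_mul, mul_assoc]⟩ }
  have hK : K = ⊤ := by
    by_contra hne
    obtain ⟨M, hM, hle⟩ := Ideal.exists_le_maximal K hne
    obtain ⟨x, rfl⟩ := isMaximal_iff_eq_vanishingIdeal_singleton.1 hM
    obtain ⟨s, hs, h⟩ := hloc x
    have hc : ∃ c : ℂ, ∀ p ∈ fib π x, eval p g = c := by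
      by_cases he : (fib π x).Nonempty
      · obtain ⟨q, hq⟩ := he
        exact ⟨_, fun p hp => hg x p hp q hq⟩
      · exact ⟨0, fun p hp => absurd ⟨p, hp⟩ he⟩
    obtain ⟨c, hc⟩ := hc
    obtain ⟨a, ha⟩ := h (g - C c) fun p hp => by simp [hc p hp]
    have : s ∈ K := ⟨a + s * C c, by rw [map_add, ha, map_mul, algHom_C]; simp; ring⟩
    have := (mem_vanishingIdeal_singleton_iff x s).1 (hle this)
    rw [aeval_eq_eval] at this
    exact hs this
  obtain ⟨a, ha⟩ := (Ideal.eq_top_iff_one K).1 hK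
  exact ⟨a, by simpa using ha⟩

theorem double_finite (π : AA →ₐ[ℂ] BB) (hS : ∀ x, (fib π x).Finite)
    (hloc : ∀ x, ∃ s : AA, eval x s ≠ 0 ∧
      ∀ g : BB, (∀ p ∈ fib π x, eval p g = 0) → ∃ a, π a = π s * g) :
    {p | ∃ x, p ∈ fib π x ∧ ∃ q ∈ fib π x, q ≠ p}.Finite := by
  classical
  choose s hs hs' using hloc
  let D : Set (Fin 4 → ℂ) := {x | ∃ p ∈ fib π x, ∃ q ∈ fib π x, q ≠ p}
  have h1 : ∀ x, ∀ x' ∈ D, x' ≠ x → eval x' (s x) = 0 := by
    rintro x x' ⟨p, hp, q, hq, hpq⟩ hne
    obtain ⟨g, g1, g2⟩ := exists_sep (insert q (hS x).toFinset) p (by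
      simp only [Finset.mem_insert, Set.Finite.mem_toFinset, not_or]
      exact ⟨hpq.symm, fun h => hne (hp.symm.trans h)⟩)
    obtain ⟨a, ha⟩ := hs' x g fun r hr => g2 r (by simp [hr])
    have e1 := congrArg (eval p) ha
    have e2 := congrArg (eval q) ha
    rw [map_mul, eval_comp, eval_comp π p (s x), show (fun j => eval p (π (X j))) = x' from hp] at e1
    rw [map_mul, eval_comp, show (fun j => eval q (π (X j))) = x' from hq, g2 q (by simp),
      mul_zero] at e2
    rw [e2] at e1
    exact (mul_eq_zero.1 e1.symm).resolve_right g1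
  have hD : D.Finite := by
    obtain ⟨T, hT, hspan⟩ := (Submodule.fg_span_iff_fg_span_finset_subset (R := AA) (s '' D)).1
      (IsNoetherian.noetherian _)
    obtain ⟨D0, hD0, hfin, him⟩ := Set.Finite.exists_subset_finite_image_eq T.finite_toSet hT
    refine hfin.subset fun x hx => ?_
    by_contra hx0
    have h2 : s x ∈ Submodule.span AA (T : Set AA) := hspan ▸ Submodule.subset_span ⟨x, hx, rfl⟩
    have h3 : Submodule.span AA (T : Set AA) ≤ RingHom.ker (eval x) := by
      rw [Submodule.span_le, ← him]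
      rintro _ ⟨x', hx', rfl⟩
      exact h1 x' x hx fun h => hx0 (h ▸ hx')
    exact hs x (h3 h2)
  refine (hD.biUnion fun x _ => hS x).subset ?_
  rintro p ⟨x, hp, q, hq, hne⟩
  exact Set.mem_biUnion (⟨p, hp, q, hq, hne⟩ : x ∈ D) hp

end Pool.Agent.H798Z.CI
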