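import Mathlib
import Pool.Agent.H798Z.CI.Double

/-!
Reduction to the normal form by changes of coordinates.
-/

set_option autoImplicit false

namespace Pool.Agent.H798Z.CI

open MvPolynomial

theorem transfer {R1 R2 : Type} [CommRing R1] [CommRing R2] (θ : R1 →+* R2) (θ' : R2 →+* R1)
    (h1 : ∀ r, θ' (θ r) = r) (h2 : ∀ r, θ (θ' r) = r) (I1 : Ideal R1) (I2 : Ideal R2)
    (h : ∀ r, r ∈ I1 ↔ θ r ∈ I2) (f : Fin 3 → R2) (hf : Ideal.span (Set.range f) = I2) :
    ∃ f' : Fin 3 → R1, Ideal.span (Set.range f') = I1 := by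
  refine ⟨fun i => θ' (f i), le_antisymm (Ideal.span_le.2 ?_) fun r hr => ?_⟩
  · rintro _ ⟨i, rfl⟩
    refine (h _).2 ?_
    rw [h2, ← hf]
    exact Ideal.subset_span ⟨i, rfl⟩
  · rw [h, ← hf] at hr
    obtain ⟨c, hc⟩ := Ideal.mem_span_range_iff_exists_fun.1 hr
    rw [← h1 r, ← hc, map_sum]
    refine Ideal.sum_mem _ fun i _ => ?_
    rw [map_mul]
    exact Ideal.mul_mem_left _ _ (Ideal.subset_span ⟨i, rfl⟩)

theorem sep_pts (π : AA →ₐ[ℂ] BB) (t : BB) (hsurj : Function.Surjective (al π t))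
    (x : Fin 4 → ℂ) (p q : Fin 2 → ℂ) (hp : p ∈ fib π x) (hq : q ∈ fib π x)
    (ht : eval p t = eval q t) : p = q := by
  have h : ∀ r, eval p (al π t r) = eval q (al π t r) := by
    intro r
    induction r using Polynomial.induction_on with
    | C a =>
      rw [al_C, eval_comp, eval_comp π q, show (fun j => eval p (π (X j))) = x from hp,
        show (fun j => eval q (π (X j))) = x from hq]
    | add f g hf hg => simp only [map_add, hf, hg]
    | monomial n a h => rw [pow_succ, ← mul_assoc, map_mul _ _ Polynomial.X, al_X, map_mul _ _ t,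
        map_mul _ _ t, h, ht]
  funext i
  obtain ⟨r, hr⟩ := hsurj (X i)
  simpa [hr] using h r

theorem eval_aeval_poly (p : Fin 2 → ℂ) (z : BB) (P : Polynomial ℂ) :
    eval p (Polynomial.aeval z P) = P.eval (eval p z) := by
  rw [← aeval_eq_eval, ← Polynomial.aeval_algHom_apply, Polynomial.coe_aeval_eq_eval]

theorem reduce_normal (π : AA →ₐ[ℂ] BB) (t : BB) (hsurj : Function.Surjective (al π t))
    (hfin : (π : AA →+* BB).Finite) (hS : ∀ x, (fib π x).Finite)
    (hT : ∀ x, ∀ g : BB, ∃ ξ : Fin 4 → ℂ, ∀ p ∈ fib π x, ∀ i,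
      eval p (pderiv i g) = ∑ j, ξ j * eval p (pderiv i (π (X j))))
    (h3 : ∀ x, ∀ p ∈ fib π x, ∀ q ∈ fib π x, ∀ r ∈ fib π x, q ≠ p → r ≠ p → q = r) :
    ∃ f : Fin 3 → Polynomial AA, Ideal.span (Set.range f) = RingHom.ker (al π t) := by
  classical
  have hloc := fun x => local_lemma π hfin x (hS x) (hT x)
  have hF := double_finite π hS hloc
  set F := hF.toFinset with hFdef
  have memF : ∀ x, ∀ p ∈ fib π x, ∀ q ∈ fib π x, q ≠ p → p ∈ F := fun x p hp q hq h =>
    hF.mem_toFinset.2 ⟨x, hp, q, hq, h⟩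
  have hc : ∀ p : Fin 2 → ℂ, ∃ c : ℂ, ∀ x, p ∈ fib π x → ∀ q ∈ fib π x, q ≠ p →
      c = (eval p t - eval q t) / 2 := by
    intro p
    by_cases h : ∃ x, p ∈ fib π x ∧ ∃ q ∈ fib π x, q ≠ p
    · obtain ⟨x, hp, q, hq, hne⟩ := h
      refine ⟨(eval p t - eval q t) / 2, fun x' hp' q' hq' hne' => ?_⟩
      obtain rfl : x = x' := hp.symm.trans hp'
      rw [h3 x p hp q hq q' hq' hne hne']
    · exact ⟨0, fun x hp q hq hne => absurd ⟨x, hp, q, hq, hne⟩ h⟩
  choose c hc using hc
  have c0 : ∀ p ∈ F, c p ≠ 0 := by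
    intro p hp
    obtain ⟨x, hp, q, hq, hne⟩ := hF.mem_toFinset.1 hp
    rw [hc p x hp q hq hne]
    intro h
    exact hne (sep_pts π t hsurj x q p hq hp (by linear_combination (-2) * h))
  obtain ⟨l, hl⟩ := Infinite.exists_notMem_finset
    ((F ×ˢ F).image fun pq => -(pq.1 1 - pq.2 1) / (pq.1 0 - pq.2 0))
  let zv : (Fin 2 → ℂ) → ℂ := fun p => p 1 + l * p 0
  have hinj : Set.InjOn zv F := by
    intro p hp q hq h
    simp only [zv] at h
    by_cases h0 : p 0 = q 0
    · funext i
      fin_cases i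
      · exact h0
      · rw [h0] at h
        simpa using h
    · exfalso
      apply hl
      refine Finset.mem_image.2 ⟨(p, q), Finset.mem_product.2 ⟨hp, hq⟩, ?_⟩
      have : p 0 - q 0 ≠ 0 := sub_ne_zero.2 h0
      field_simp
      linear_combination -h
  let P : Polynomial ℂ := Lagrange.interpolate F zv fun p => c p - p 0
  let g : Polynomial ℂ := Lagrange.interpolate F zv c
  let h0 : Polynomial ℂ := ∏ p ∈ F, (Polynomial.X - Polynomial.C (zv p))
  let z : BB := X 1 + C l * X 0
  let y : BB := X 0 + Polynomial.aeval z P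
  have ez : ∀ p, eval p z = zv p := by intro p; simp [z, zv]
  have ey : ∀ p ∈ F, eval p y = c p := by
    intro p hp
    simp only [y, map_add, eval_X, eval_aeval_poly, ez, P]
    rw [Lagrange.eval_interpolate_at_node _ hinj hp]
    ring
  let γ : BB →ₐ[ℂ] BB := aeval ![y, z]
  let β : BB →ₐ[ℂ] BB := aeval ![X 0 - sg P, X 1 - C l * (X 0 - sg P)]
  have βz : β z = X 1 := by simp [β, z]
  have βy : β y = X 0 := by
    simp only [y, map_add, ← Polynomial.aeval_algHom_apply, βz]
    simp [β, sg]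
  have γsg : ∀ p, γ (sg p) = Polynomial.aeval z p := by
    intro p
    rw [sg, ← Polynomial.aeval_algHom_apply]
    simp [γ]
  have γ0 : γ (X 0) = y := by simp [γ]
  have γ1 : γ (X 1) = z := by simp [γ]
  have βγ : ∀ x, β (γ x) = x := by
    have : β.comp γ = AlgHom.id ℂ BB := by
      apply MvPolynomial.algHom_ext
      intro i
      fin_cases i
      · exact (congrArg β γ0).trans βy
      · exact (congrArg β γ1).trans βz
    exact fun x => AlgHom.congr_fun this x
  have γβ : ∀ x, γ (β x) = x := by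
    have e0 : γ (X 0 - sg P) = X 0 := by rw [map_sub, γ0, γsg]; simp [y]
    have : γ.comp β = AlgHom.id ℂ BB := by
      apply MvPolynomial.algHom_ext
      intro i
      fin_cases i
      · simpa [β] using e0
      · have : γ (X 1 - C l * (X 0 - sg P)) = X 1 := by
          rw [map_sub, map_mul, e0, γ1, algHom_C]; simp [z]
        simpa [β] using this
    exact fun x => AlgHom.congr_fun this x
  have van : ∀ v : BB, (∀ p ∈ F, eval p v = 0) → ∀ x, ∃ a, π a = v * x := by
    intro v hv x
    refine range_eq π hloc _ fun x' p hp q hq => ?_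
    by_cases h : q = p
    · rw [h]
    · rw [map_mul, map_mul, hv p (memF x' p hp q hq h), hv q (memF x' q hq p hp (Ne.symm h))]
      simp
  obtain ⟨a, ha⟩ := range_eq π hloc (y - t) fun x p hp q hq => by
    by_cases h : q = p
    · rw [h]
    · rw [map_sub, map_sub, ey p (memF x p hp q hq h), ey q (memF x q hq p hp (Ne.symm h)),
        hc p x hp q hq h, hc q x hq p hp (Ne.symm h)]
      ring
  obtain ⟨b0, hb0⟩ := range_eq π hloc (y ^ 2) fun x p hp q hq => by
    by_cases h : q = p
    · rw [h]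
    · rw [map_pow, map_pow, ey p (memF x p hp q hq h), ey q (memF x q hq p hp (Ne.symm h)),
        hc p x hp q hq h, hc q x hq p hp (Ne.symm h)]
      ring
  let θ : Polynomial AA →+* Polynomial AA :=
    Polynomial.eval₂RingHom Polynomial.C (Polynomial.X - Polynomial.C a)
  let θ' : Polynomial AA →+* Polynomial AA :=
    Polynomial.eval₂RingHom Polynomial.C (Polynomial.X + Polynomial.C a)
  have t1 : θ'.comp θ = RingHom.id _ := by
    apply Polynomial.ringHom_ext <;> simp [θ, θ']
  have t2 : θ.comp θ' = RingHom.id _ := by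
    apply Polynomial.ringHom_ext <;> simp [θ, θ']
  have t3 : (al (β.comp π) (X 0)).comp θ = (β : BB →+* BB).comp (al π t) := by
    apply Polynomial.ringHom_ext
    · simp [θ]
    · simp [θ, ha, βy]
  have t3' : ∀ r, al (β.comp π) (X 0) (θ r) = β (al π t r) := fun r => RingHom.congr_fun t3 r
  obtain ⟨f, hf⟩ := normal_gens (β.comp π)
    (fun x => by
      obtain ⟨r, hr⟩ := hsurj (γ x)
      exact ⟨θ r, by rw [t3', hr, βγ]⟩)
    b0 (by simp [hb0, βy]) g h0
    (Finset.prod_ne_zero_iff.2 fun p _ => Polynomial.X_sub_C_ne_zero _)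
    ((Polynomial.isCoprime_iff_aeval_ne_zero_of_isAlgClosed ℂ ℂ _ _).2 fun r => by
      by_cases hr : Polynomial.aeval r h0 = 0
      · right
        simp only [h0, map_prod, Finset.prod_eq_zero_iff, map_sub, Polynomial.aeval_X,
          Polynomial.aeval_C, Algebra.algebraMap_self, RingHom.id_apply, sub_eq_zero] at hr
        obtain ⟨p, hp, rfl⟩ := hr
        rw [Polynomial.coe_aeval_eq_eval, Lagrange.eval_interpolate_at_node _ hinj hp]
        exact c0 p hp
      · exact Or.inl hr)
    (fun x => by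
      obtain ⟨a', ha'⟩ := van (γ (X 0 - sg g)) (fun p hp => by
        rw [map_sub, γ0, γsg, map_sub, ey p hp, eval_aeval_poly, ez,
          Lagrange.eval_interpolate_at_node _ hinj hp, sub_self]) (γ x)
      exact ⟨a', by rw [AlgHom.comp_apply, ha', map_mul, βγ, βγ]⟩)
    (fun x => by
      obtain ⟨a', ha'⟩ := van (γ (sg h0)) (fun p hp => by
        rw [γsg, eval_aeval_poly, ez, Polynomial.eval_prod]
        exact Finset.prod_eq_zero hp (by simp)) (γ x)
      exact ⟨a', by rw [AlgHom.comp_apply, ha', map_mul, βγ, βγ]⟩)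
  refine transfer θ θ' (fun r => RingHom.congr_fun t1 r) (fun r => RingHom.congr_fun t2 r) _ _
    (fun r => ?_) f hf
  rw [RingHom.mem_ker, RingHom.mem_ker, t3']
  constructor
  · intro h; rw [h, map_zero]
  · intro h; rw [← γβ (al π t r), h, map_zero]

end Pool.Agent.H798Z.CI
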