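import Mathlib

/-!
Generic parameters: derivations of the complex numbers killing finitely many given numbers and
dual to four further numbers.
-/

set_option autoImplicit false

namespace Pool.Agent.H798Z.CI

open MvPolynomial Cardinal

theorem extend_der {R S T : Type} [CommRing R] [CommRing S] [CommRing T] [Algebra R S]
    [Algebra R T] [Algebra S T] [IsScalarTower R S T] [Algebra.FormallyEtale S T]
    (d : Derivation R S T) : ∃ D : Derivation R T T, ∀ s, D (algebraMap S T s) = d s := by
  refine ⟨((d.liftKaehlerDifferential.liftBaseChange T).comp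
    (KaehlerDifferential.tensorKaehlerEquivOfFormallyEtale R S T).symm.toLinearMap).compDer
      (KaehlerDifferential.D R T), fun s => ?_⟩
  change d.liftKaehlerDifferential.liftBaseChange T
    ((KaehlerDifferential.tensorKaehlerEquivOfFormallyEtale R S T).symm
      (KaehlerDifferential.D R T (algebraMap S T s))) = _
  rw [KaehlerDifferential.tensorKaehlerEquivOfFormallyEtale_symm_D_algebraMap]
  simp [Derivation.liftKaehlerDifferential_comp_D]

open scoped IntermediateField.algebraAdjoinAdjoin in
theorem exists_der_basis {k : Type} [Field k] [CharZero k] [Algebra k ℂ] {ι : Type}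
    [DecidableEq ι] (b : ι → ℂ) (hb : IsTranscendenceBasis k b) (i : ι) :
    ∃ D : Derivation k ℂ ℂ, ∀ j, D (b j) = if j = i then 1 else 0 := by
  let S := Algebra.adjoin k (Set.range b)
  let K := IntermediateField.adjoin k (Set.range b)
  have h1 : Algebra.FormallyEtale S K := .of_isLocalization (nonZeroDivisors S)
  have h2 : Algebra.IsAlgebraic K ℂ := hb.isAlgebraic_field
  have h3 : Algebra.FormallyEtale K ℂ := Algebra.FormallyEtale.of_isSeparable K ℂ
  have h4 : Algebra.FormallyEtale S ℂ := .comp S K ℂ
  let e := hb.1.aevalEquiv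
  have he : ∀ p, algebraMap S ℂ (e p) = aeval b p := fun p => hb.1.algebraMap_aevalEquiv p
  let d : Derivation k S ℂ := Derivation.mk'
    ((aeval b).toLinearMap.comp ((pderiv i).toLinearMap.comp e.symm.toLinearMap)) (by
      intro x y
      obtain ⟨p, rfl⟩ := e.surjective x
      obtain ⟨q, rfl⟩ := e.surjective y
      rw [← map_mul]
      simp only [LinearMap.comp_apply, AlgEquiv.toLinearMap_apply, AlgEquiv.symm_apply_apply,
        Derivation.coeFn_coe, Derivation.leibniz, AlgHom.toLinearMap_apply, smul_eq_mul, map_add,
        map_mul, Algebra.smul_def, he])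
  obtain ⟨D, hD⟩ := extend_der d
  refine ⟨D, fun j => ?_⟩
  have h5 : b j = algebraMap S ℂ (e (X j)) := by rw [he]; simp
  rw [h5, hD]
  change aeval b (pderiv i (e.symm (e (X j)))) = _
  rw [AlgEquiv.symm_apply_apply, pderiv_X]
  by_cases h : j = i
  · subst h; simp
  · simp [h]

theorem exists_generic (S : Finset ℂ) (n : ℕ) :
    ∃ (v : Fin n → ℂ) (D : Fin n → Derivation ℤ ℂ ℂ), (∀ i, ∀ s ∈ S, D i s = 0) ∧
      ∀ i j, D i (v j) = if j = i then 1 else 0 := by
  classical
  let k := IntermediateField.adjoin ℚ (S : Set ℂ)
  have hk : #k ≤ ℵ₀ := by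
    refine (IntermediateField.cardinalMk_adjoin_le ℚ (S : Set ℂ)).trans ?_
    simp only [mk_eq_aleph0, max_le_iff, le_refl, true_and, and_true]
    exact (Set.Finite.lt_aleph0 S.finite_toSet).le
  obtain ⟨s, hs⟩ := exists_isTranscendenceBasis k ℂ
  have hc := IsAlgClosed.cardinal_eq_cardinal_transcendence_basis_of_aleph0_lt' _ hs hk
    (by rw [mk_complex]; exact aleph0_lt_continuum)
  have hinf : Infinite s := by
    rw [Cardinal.infinite_iff, ← hc, mk_complex]
    exact aleph0_le_continuum
  let u : Fin n → s := fun i => Infinite.natEmbedding s i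
  have hu : Function.Injective u := fun i j h =>
    Fin.ext ((Infinite.natEmbedding s).injective h)
  choose D hD using fun i : Fin n => exists_der_basis _ hs (u i)
  refine ⟨fun j => (u j : ℂ), fun i => (D i).restrictScalars ℤ, fun i c hc => ?_, fun i j => ?_⟩
  · have : c = algebraMap k ℂ ⟨c, IntermediateField.subset_adjoin ℚ _ hc⟩ := rfl
    rw [this]
    exact (D i).map_algebraMap _
  · change D i (u j : ℂ) = _
    rw [hD i (u j)]
    simp only [hu.eq_iff]

/-- chain rule for evaluation at a point, when the coefficients are constants -/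
theorem der_eval {σ : Type} [Fintype σ] (D : Derivation ℤ ℂ ℂ) (f : MvPolynomial σ ℂ)
    (hf : ∀ c ∈ f.coeffs, D c = 0) (p : σ → ℂ) :
    D (eval p f) = ∑ i, eval p (pderiv i f) * D (p i) := by
  classical
  let K : Subring ℂ :=
    { carrier := {c | D c = 0}
      mul_mem' := fun {a b} ha hb => by
        simp only [Set.mem_ofPred_eq] at ha hb ⊢
        rw [D.leibniz, ha, hb]; simp
      one_mem' := D.map_one_eq_zero
      add_mem' := fun {a b} ha hb => by
        simp only [Set.mem_ofPred_eq] at ha hb ⊢
        rw [map_add, ha, hb]; simp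
      zero_mem' := map_zero D
      neg_mem' := fun {a} ha => by
        simp only [Set.mem_ofPred_eq] at ha ⊢
        rw [map_neg, ha]; simp }
  obtain ⟨g, rfl⟩ : f ∈ Set.range (map K.subtype) :=
    mem_range_map_iff_coeffs_subset.2 fun c hc => ⟨⟨c, hf c hc⟩, rfl⟩
  clear hf
  induction g using MvPolynomial.induction_on with
  | C a =>
    have : D (a : ℂ) = 0 := a.2
    simp [this]
  | add p q hp hq => simp only [map_add, hp, hq, Finset.sum_add_distrib, add_mul]
  | mul_X q j hq =>
    rw [map_mul, map_X, map_mul, eval_X, D.leibniz, hq]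
    simp only [Derivation.leibniz, pderiv_X, smul_eq_mul, map_add, map_mul, eval_X, add_mul,
      Finset.sum_add_distrib, Finset.mul_sum]
    congr 1
    · rw [Finset.sum_eq_single j]
      · simp
      · intro i _ hi
        simp [hi.symm]
      · simp
    · exact Finset.sum_congr rfl fun i _ => by ring

end Pool.Agent.H798Z.CI
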