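import Mathlib
import Pool.Agent.H798Z.CI.Coord
import Pool.Agent.H798Z.CI.Gen

/-!
A generic projection is an immersion with transverse double points only.
-/

set_option autoImplicit false

namespace Pool.Agent.H798Z.CI

open MvPolynomial Matrix

theorem exists_ker34 (M : Matrix (Fin 3) (Fin 4) ℂ) : ∃ μ : Fin 4 → ℂ, μ ≠ 0 ∧ M *ᵥ μ = 0 := by
  have := LinearMap.ker_ne_bot_of_finrank_lt (f := Matrix.toLin' M) (by simp)
  obtain ⟨μ, h1, h2⟩ := Submodule.exists_mem_ne_zero_of_ne_bot this
  exact ⟨μ, h2, by simpa using h1⟩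

theorem tangent_zero (π : AA →ₐ[ℂ] BB) (t : BB) (hsurj : Function.Surjective (al π t))
    (p τ : Fin 2 → ℂ) (h1 : ∀ j, ∑ l, eval p (pderiv l (π (X j))) * τ l = 0)
    (h2 : ∑ l, eval p (pderiv l t) * τ l = 0) : τ = 0 := by
  classical
  have ha : ∀ a, ∑ l, eval p (pderiv l (π a)) * τ l = 0 := by
    intro a
    have : ∀ l, eval p (pderiv l (π a)) * τ l =
        ∑ j, eval p (π (pderiv j a)) * (eval p (pderiv l (π (X j))) * τ l) := by
      intro l
      rw [chain π (pderiv l) a, map_sum, Finset.sum_mul]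
      exact Finset.sum_congr rfl fun j _ => by rw [map_mul, mul_assoc]
    rw [Finset.sum_congr rfl fun l _ => this l, Finset.sum_comm]
    exact Finset.sum_eq_zero fun j _ => by rw [← Finset.mul_sum, h1, mul_zero]
  have h : ∀ r, ∑ l, eval p (pderiv l (al π t r)) * τ l = 0 := by
    intro r
    induction r using Polynomial.induction_on with
    | C a => rw [al_C]; exact ha a
    | add f g hf hg => simp only [map_add, add_mul, Finset.sum_add_distrib, hf, hg, add_zero]
    | monomial n a h =>
      rw [pow_succ, ← mul_assoc, map_mul _ _ Polynomial.X, al_X]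
      simp only [Derivation.leibniz, smul_eq_mul, map_add, map_mul (eval p), add_mul,
        Finset.sum_add_distrib, mul_assoc, ← Finset.mul_sum, h, h2, mul_zero, add_zero]
  funext i
  obtain ⟨r, hr⟩ := hsurj (X i)
  have := h r
  rw [hr, Finset.sum_eq_single i] at this
  · simpa using this
  · intro l _ hl
    simp [pderiv_X, Ne.symm hl]
  · simp

/-- the chain rule holds for `f` -/
def Chain (D : Fin 4 → Derivation ℤ ℂ ℂ) (f : BB) : Prop :=
  ∀ i p, D i (eval p f) = ∑ l, eval p (pderiv l f) * D i (p l)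

theorem geom (t : BB) (ψ : Fin 4 → BB) (u : Fin 4 → ℂ) (D : Fin 4 → Derivation ℤ ℂ ℂ)
    (hD : ∀ i j, D i (u j) = if j = i then 1 else 0) (ct : Chain D t) (cψ : ∀ j, Chain D (ψ j))
    (ct' : ∀ l, Chain D (pderiv l t)) (cψ' : ∀ j l, Chain D (pderiv l (ψ j)))
    (π : AA →ₐ[ℂ] BB) (hπ : ∀ j, π (X j) = ψ j - C (u j) * t)
    (hsurj : Function.Surjective (al π t)) (hfin : (π : AA →+* BB).Finite) :
    ∃ f : Fin 3 → Polynomial AA, Ideal.span (Set.range f) = RingHom.ker (al π t) := by
  classical
  let J : (Fin 2 → ℂ) → Matrix (Fin 4) (Fin 2) ℂ := fun p =>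
    Matrix.of fun j l => eval p (pderiv l (π (X j)))
  let E : (Fin 2 → ℂ) → Matrix (Fin 2) (Fin 4) ℂ := fun p => Matrix.of fun l i => D i (p l)
  have hJ : ∀ p j l, J p j l = eval p (pderiv l (ψ j)) - u j * eval p (pderiv l t) := by
    intro p j l
    simp [J, hπ]
  have key : ∀ x, ∀ p ∈ fib π x,
      J p * E p - eval p t • (1 : Matrix (Fin 4) (Fin 4) ℂ) = Matrix.of fun j i => D i (x j) := by
    intro x p hp
    ext j i
    have h1 : x j = eval p (ψ j) - u j * eval p t := by
      rw [← congrFun hp j, hπ]; simp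
    rw [Matrix.of_apply, h1, map_sub, Derivation.leibniz, cψ, ct, hD]
    simp only [Matrix.sub_apply, Matrix.mul_apply, hJ, E, Matrix.of_apply, Matrix.smul_apply,
      Matrix.one_apply, smul_eq_mul, Fin.sum_univ_two]
    ring
  have key2 : ∀ x, ∀ p ∈ fib π x, ∀ q ∈ fib π x,
      J p * E p - J q * E q = (eval p t - eval q t) • (1 : Matrix (Fin 4) (Fin 4) ℂ) := by
    intro x p hp q hq
    have := (key x p hp).trans (key x q hq).symm
    rw [sub_smul]
    exact sub_eq_sub_iff_sub_eq_sub.1 this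
  have trans : ∀ x, ∀ p ∈ fib π x, ∀ q ∈ fib π x, q ≠ p →
      ∃ N : Matrix (Fin 2 ⊕ Fin 2) (Fin 4) ℂ, N * fromCols (J p) (J q) = 1 := by
    intro x p hp q hq hne
    have h0 : eval p t - eval q t ≠ 0 := fun h =>
      hne (sep_pts π t hsurj x q p hq hp (sub_eq_zero.1 h).symm)
    refine ⟨(eval p t - eval q t)⁻¹ • fromRows (E p) (-E q), ?_⟩
    rw [← Matrix.mul_eq_one_comm_of_equiv finSumFinEquiv.symm, Matrix.mul_smul,
      fromCols_mul_fromRows, Matrix.mul_neg, ← sub_eq_add_neg, key2 x p hp q hq, smul_smul,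
      inv_mul_cancel₀ h0, one_smul]
  have h3 : ∀ x, ∀ p ∈ fib π x, ∀ q ∈ fib π x, ∀ r ∈ fib π x, q ≠ p → r ≠ p → q = r := by
    intro x p hp q hq r hr hqp hrp
    by_contra hqr
    obtain ⟨N, hN⟩ := trans x q hq r hr (Ne.symm hqr)
    obtain ⟨μ, hμ, hk⟩ := exists_ker34 (Matrix.of ![E p 0, E p 1, 0])
    have e0 : E p *ᵥ μ = 0 := by
      funext l
      fin_cases l
      · exact congrFun hk 0
      · exact congrFun hk 1
    have n1 : eval p t - eval q t ≠ 0 := fun h =>
      hqp (sep_pts π t hsurj x q p hq hp (sub_eq_zero.1 h).symm)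
    have n2 : eval p t - eval r t ≠ 0 := fun h =>
      hrp (sep_pts π t hsurj x r p hr hp (sub_eq_zero.1 h).symm)
    have e1 : ∀ s ∈ fib π x, J s *ᵥ (E s *ᵥ μ) = -((eval p t - eval s t) • μ) := by
      intro s hs
      have := congrArg (· *ᵥ μ) (key2 x p hp s hs)
      simp only [Matrix.sub_mulVec, ← mulVec_mulVec, e0, mulVec_zero, zero_sub, smul_mulVec,
        one_mulVec] at this
      rw [← this, neg_neg]
    have e2 : fromCols (J q) (J r) *ᵥ Sum.elim ((eval p t - eval r t) • (E q *ᵥ μ))
        (-(eval p t - eval q t) • (E r *ᵥ μ)) = 0 := by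
      rw [fromCols_mulVec_sumElim, mulVec_smul, mulVec_smul, e1 q hq, e1 r hr]
      funext j
      simp only [Pi.add_apply, Pi.smul_apply, Pi.neg_apply, smul_eq_mul, Pi.zero_apply]
      ring
    have e3 := congrArg (N *ᵥ ·) e2
    simp only [mulVec_mulVec, hN, one_mulVec, mulVec_zero] at e3
    have e4 : E q *ᵥ μ = 0 := by
      funext l
      have := congrFun e3 (Sum.inl l)
      simpa [n2] using this
    have e5 := e1 q hq
    rw [e4, mulVec_zero, eq_comm, neg_eq_zero, smul_eq_zero] at e5
    exact e5.elim n1 hμ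
  have imm : ∀ p, ∃ N : Matrix (Fin 2) (Fin 4) ℂ, N * J p = 1 := by
    intro p
    have hinj : LinearMap.ker (Matrix.toLin' (J p)) = ⊥ := by
      rw [LinearMap.ker_eq_bot']
      intro τ hτ
      by_contra hne
      have h1 : ∀ j, ∑ l, J p j l * τ l = 0 := fun j => congrFun hτ j
      have h2 : ∑ l, eval p (pderiv l t) * τ l ≠ 0 := fun h =>
        hne (tangent_zero π t hsurj p τ h1 h)
      obtain ⟨μ, hμ, hk⟩ := exists_ker34
        (Matrix.of ![E p 0, E p 1, fun i => τ 0 * D i (τ 1) - τ 1 * D i (τ 0)])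
      let Dm : Derivation ℤ ℂ ℂ := ∑ i, μ i • D i
      have hDm : ∀ c, Dm c = ∑ i, D i c * μ i := by
        intro c
        simp only [Dm, Fin.sum_univ_four, Derivation.add_apply, Derivation.smul_apply, smul_eq_mul]
        ring
      have k0 : Dm (p 0) = 0 := by rw [hDm]; exact congrFun hk 0
      have k1 : Dm (p 1) = 0 := by rw [hDm]; exact congrFun hk 1
      have k2 : τ 0 * Dm (τ 1) - τ 1 * Dm (τ 0) = 0 := by
        have := congrFun hk 2
        simp only [mulVec, dotProduct, Matrix.of_apply, Matrix.cons_val, Pi.zero_apply,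
          Fin.sum_univ_four] at this
        simp only [hDm, Fin.sum_univ_four]
        linear_combination this
      have kc : ∀ f, Chain D f → Dm (eval p f) = 0 := by
        intro f hf
        rw [hDm] at k0 k1 ⊢
        simp only [hf _ p, Fin.sum_univ_two, Fin.sum_univ_four] at k0 k1 ⊢
        linear_combination eval p (pderiv 0 f) * k0 + eval p (pderiv 1 f) * k1
      have ku : ∀ j, Dm (u j) = μ j := by
        intro j
        rw [hDm]
        simp [hD]
      apply hμ
      funext j
      have a1 := h1 j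
      have a2 := congrArg Dm a1
      simp only [hJ, Fin.sum_univ_two, map_add, map_sub, Derivation.leibniz, smul_eq_mul,
        kc _ (ct' _), kc _ (cψ' _ _), ku, map_zero] at a1 a2
      rw [Fin.sum_univ_two] at h2
      have b0 : τ 0 * μ j = 0 := by
        apply mul_right_cancel₀ h2
        linear_combination (-τ 0) * a2 + Dm (τ 0) * a1 +
          (eval p (pderiv 1 (ψ j)) - u j * eval p (pderiv 1 t)) * k2
      have b1 : τ 1 * μ j = 0 := by
        apply mul_right_cancel₀ h2
        linear_combination (-τ 1) * a2 + Dm (τ 1) * a1 -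
          (eval p (pderiv 0 (ψ j)) - u j * eval p (pderiv 0 t)) * k2
      by_contra hj
      apply hne
      funext l
      fin_cases l
      · exact (mul_eq_zero.1 b0).resolve_right hj
      · exact (mul_eq_zero.1 b1).resolve_right hj
    obtain ⟨G, hG⟩ := LinearMap.exists_leftInverse_of_injective _ hinj
    refine ⟨LinearMap.toMatrix' G, ?_⟩
    have := congrArg LinearMap.toMatrix' hG
    rwa [LinearMap.toMatrix'_comp, LinearMap.toMatrix'_toLin', LinearMap.toMatrix'_id] at this
  have cases : ∀ x, fib π x = ∅ ∨ (∃ p, fib π x = {p}) ∨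
      ∃ p ∈ fib π x, ∃ q ∈ fib π x, q ≠ p ∧ fib π x = {p, q} := by
    intro x
    rcases (fib π x).eq_empty_or_nonempty with h | ⟨p, hp⟩
    · exact Or.inl h
    · by_cases h : ∃ q ∈ fib π x, q ≠ p
      · obtain ⟨q, hq, hne⟩ := h
        refine Or.inr (Or.inr ⟨p, hp, q, hq, hne, Set.Subset.antisymm (fun r hr => ?_) ?_⟩)
        · by_cases hrp : r = p
          · exact Or.inl hrp
          · exact Or.inr (h3 x p hp r hr q hq hrp hne)
        · rintro r (rfl | rfl)
          · exact hp
          · exact hq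
      · push Not at h
        exact Or.inr (Or.inl ⟨p, Set.eq_singleton_iff_unique_mem.2 ⟨hp, h⟩⟩)
  refine reduce_normal π t hsurj hfin (fun x => ?_) (fun x g => ?_) h3
  · rcases cases x with h | ⟨p, h⟩ | ⟨p, -, q, -, -, h⟩ <;> rw [h] <;> exact Set.toFinite _
  · rcases cases x with h | ⟨p, h⟩ | ⟨p, hp, q, hq, hne, h⟩
    · exact ⟨0, by simp [h]⟩
    · obtain ⟨N, hN⟩ := imm p
      refine ⟨(fun i => eval p (pderiv i g)) ᵥ* N, fun r hr i => ?_⟩
      rw [h] at hr
      obtain rfl : r = p := hr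
      have := congrFun (vecMul_vecMul (fun i => eval r (pderiv i g)) N (J r)) i
      rw [hN, vecMul_one] at this
      exact this.symm
    · obtain ⟨N, hN⟩ := trans x p hp q hq hne
      let η : Fin 2 ⊕ Fin 2 → ℂ :=
        Sum.elim (fun i => eval p (pderiv i g)) fun i => eval q (pderiv i g)
      have := vecMul_vecMul η N (fromCols (J p) (J q))
      rw [hN, vecMul_one] at this
      refine ⟨η ᵥ* N, fun r hr i => ?_⟩
      rw [h] at hr
      rcases hr with rfl | rfl
      · exact (congrFun this (Sum.inl i)).symm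
      · exact (congrFun this (Sum.inr i)).symm

end Pool.Agent.H798Z.CI
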