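import Mathlib
import Pool.Agent.H798Z.CI.Geom

/-!
The ideal of a plane embedded in affine five-space has three generators.
-/

set_option autoImplicit false

namespace Pool.Agent.H798Z.CI

open MvPolynomial

theorem prod_top {ι A : Type} [CommRing A] (l : ι → Polynomial A) (hl : ∀ i, (l i).natDegree ≤ 1)
    (m : ι → ℕ) (s : Finset ι) :
    (∏ i ∈ s, l i ^ m i).natDegree ≤ ∑ i ∈ s, m i ∧
      (∏ i ∈ s, l i ^ m i).coeff (∑ i ∈ s, m i) = ∏ i ∈ s, (l i).coeff 1 ^ m i := by
  classical
  induction s using Finset.induction with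
  | empty => simp
  | insert a s ha ih =>
    rw [Finset.prod_insert ha, Finset.sum_insert ha, Finset.prod_insert ha]
    have h1 : (l a ^ m a).natDegree ≤ m a := by
      simpa using Polynomial.natDegree_pow_le_of_le (m a) (hl a)
    refine ⟨Polynomial.natDegree_mul_le_of_le h1 ih.1, ?_⟩
    rw [Polynomial.coeff_mul_add_eq_of_natDegree_le h1 ih.1, ih.2]
    congr 1
    simpa using Polynomial.coeff_pow_of_natDegree_le (m := m a) (hl a)

theorem top_coeff {ι : Type} [Fintype ι] (l : ι → Polynomial AA) (hl : ∀ i, (l i).natDegree ≤ 1)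
    (w : ι → ℂ) (hw : ∀ i, (l i).coeff 1 = C (w i)) (F : MvPolynomial ι ℂ) :
    (aeval l F).natDegree ≤ F.totalDegree ∧
      (aeval l F).coeff F.totalDegree = C (eval w (homogeneousComponent F.totalDegree F)) := by
  classical
  have h1 : aeval l F = ∑ m ∈ F.support, Polynomial.C (C (coeff m F)) * ∏ i, l i ^ m i := by
    conv_lhs => rw [F.as_sum, map_sum]
    refine Finset.sum_congr rfl fun m _ => ?_
    rw [aeval_monomial, Finsupp.prod_fintype _ _ (by simp)]
    rfl
  have h2 : ∀ m ∈ F.support, ∑ i, m i ≤ F.totalDegree := by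
    intro m hm
    have := le_totalDegree hm
    rwa [Finsupp.sum_fintype _ _ (by simp)] at this
  constructor
  · rw [h1]
    refine Polynomial.natDegree_sum_le_of_forall_le _ _ fun m hm => ?_
    exact (Polynomial.natDegree_C_mul_le _ _).trans ((prod_top l hl m _).1.trans (h2 m hm))
  · rw [h1, Polynomial.finsetSum_coeff, homogeneousComponent_apply, map_sum, map_sum,
      Finset.sum_filter]
    refine Finset.sum_congr rfl fun m hm => ?_
    rw [Polynomial.coeff_C_mul, Finsupp.degree_eq_sum]
    split_ifs with h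
    · rw [← h, (prod_top l hl m _).2, eval_monomial, Finsupp.prod_fintype _ _ (by simp)]
      simp [hw]
    · rw [Polynomial.coeff_eq_zero_of_natDegree_lt
        ((prod_top l hl m _).1.trans_lt (lt_of_le_of_ne (h2 m hm) h)), mul_zero]

theorem top_ne_zero {ι : Type} (F : MvPolynomial ι ℂ) (hF : F ≠ 0) :
    homogeneousComponent F.totalDegree F ≠ 0 := by
  classical
  obtain ⟨m, hm, h⟩ := Finset.exists_mem_eq_sup F.support (support_nonempty.2 hF)
    fun s : ι →₀ ℕ => s.sum fun _ e => e
  intro h0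
  have := congrArg (coeff m) h0
  rw [coeff_homogeneousComponent, if_pos (by rw [totalDegree, h]; rfl), coeff_zero] at this
  exact mem_support_iff.1 hm this

theorem finite_of_monic (π : AA →ₐ[ℂ] BB) (t : BB) (hsurj : Function.Surjective (al π t))
    (G : Polynomial AA) (hG : G.Monic) (h : al π t G = 0) : (π : AA →+* BB).Finite := by
  let _ : Algebra AA BB := (π : AA →+* BB).toAlgebra
  have hint : IsIntegral AA t := ⟨G, hG, h⟩
  have hadj : Algebra.adjoin AA {t} = ⊤ := by
    rw [Algebra.adjoin_singleton_eq_range_aeval, AlgHom.range_eq_top]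
    exact hsurj
  exact ⟨by rw [← Algebra.top_toSubmodule, ← hadj]; exact hint.fg_adjoin_singleton⟩

theorem Chain.const_mul {D : Fin 4 → Derivation ℤ ℂ ℂ} {f : BB} (hf : Chain D f) (c : ℂ)
    (hc : ∀ i, D i c = 0) : Chain D (C c * f) := by
  intro i p
  rw [map_mul, eval_C, Derivation.leibniz, hc, hf]
  simp [mul_assoc, mul_add]

theorem plane_ci (α : MvPolynomial (Fin 5) ℂ →ₐ[ℂ] MvPolynomial (Fin 2) ℂ)
    (hα : Function.Surjective α) :
    ∃ f : Fin 3 → MvPolynomial (Fin 5) ℂ, Ideal.span (Set.range f) = RingHom.ker α := by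
  classical
  by_cases h0 : RingHom.ker α = ⊥
  · exact ⟨0, by rw [h0]; simp⟩
  obtain ⟨F, hF, hF0⟩ := Submodule.exists_mem_ne_zero_of_ne_bot h0
  obtain ⟨v, D, hS, hD⟩ := exists_generic
    (Finset.univ.biUnion (fun j : Fin 5 => (α (X j)).coeffs) ∪
      Finset.univ.biUnion fun jl : Fin 5 × Fin 2 => (pderiv jl.2 (α (X jl.1))).coeffs) 4
  have c1 : ∀ j, Chain D (α (X j)) := fun j i p => der_eval _ _ (fun c hc => hS i c
    (Finset.mem_union_left _ (Finset.mem_biUnion.2 ⟨j, Finset.mem_univ _, hc⟩))) p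
  have c2 : ∀ j l, Chain D (pderiv l (α (X j))) := fun j l i p => der_eval _ _ (fun c hc => hS i c
    (Finset.mem_union_right _ (Finset.mem_biUnion.2 ⟨(j, l), Finset.mem_univ _, hc⟩))) p
  let b : Fin 5 → ℂ := Fin.cons 1 v
  have hex : ∃ n : Fin 5 → ℕ,
      eval (fun j => b j + n j) (homogeneousComponent F.totalDegree F) ≠ 0 := by
    by_contra hcon
    push Not at hcon
    apply top_ne_zero F hF0
    refine funext_set (fun j => Set.range fun n : ℕ => b j + n) (fun j =>
      Set.infinite_range_of_injective fun n n' h => by simpa using h) fun x hx => ?_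
    choose n hn using fun j => hx j (Set.mem_univ j)
    rw [map_zero, ← hcon n]
    congr 2
    exact funext fun j => (hn j).symm
  obtain ⟨n, hn⟩ := hex
  let w : Fin 5 → ℂ := fun j => b j + n j
  have w0 : w 0 ≠ 0 := by
    simp only [w, b, Fin.cons_zero]
    exact_mod_cast (by omega : 1 + n 0 ≠ 0)
  have Dw0 : ∀ i, D i (w 0)⁻¹ = 0 := by
    intro i
    have : D i (w 0) = 0 := by simp [w, b]
    rw [Derivation.leibniz_inv, this]; simp
  let t : BB := C (w 0)⁻¹ * α (X 0)
  let π : AA →ₐ[ℂ] BB := aeval fun j => α (X j.succ) - C (w j.succ) * t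
  let l : Fin 5 → Polynomial AA := Fin.cons (Polynomial.C (C (w 0)) * Polynomial.X)
    fun j => Polynomial.C (C (w j.succ)) * Polynomial.X + Polynomial.C (X j)
  let θ : MvPolynomial (Fin 5) ℂ →ₐ[ℂ] Polynomial AA := aeval l
  let θA : AA →ₐ[ℂ] MvPolynomial (Fin 5) ℂ :=
    aeval fun j => X j.succ - C (w j.succ) * (C (w 0)⁻¹ * X 0)
  let θ' : Polynomial AA →+* MvPolynomial (Fin 5) ℂ :=
    Polynomial.eval₂RingHom (θA : AA →+* MvPolynomial (Fin 5) ℂ) (C (w 0)⁻¹ * X 0)
  have θC : ∀ c, θ (C c) = Polynomial.C (C c) := fun c => algHom_C _ _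
  have θ0 : θ (X 0) = Polynomial.C (C (w 0)) * Polynomial.X := by simp [θ, l]
  have θs : ∀ j : Fin 4, θ (X j.succ) =
      Polynomial.C (C (w j.succ)) * Polynomial.X + Polynomial.C (X j) := by
    intro j; simp [θ, l]
  have θT : θ (C (w 0)⁻¹ * X 0) = Polynomial.X := by
    rw [map_mul, θC, θ0, ← mul_assoc, ← map_mul, ← map_mul, inv_mul_cancel₀ w0]; simp
  have t1 : θ'.comp (θ : MvPolynomial (Fin 5) ℂ →+* Polynomial AA) = RingHom.id _ := by
    apply MvPolynomial.ringHom_ext
    · intro c; simp [θ', θC, algHom_C]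
    · intro j
      refine Fin.cases ?_ (fun j => ?_) j
      · simp only [RingHom.comp_apply, RingHom.coe_coe, θ0, RingHom.id_apply]
        simp [θ', algHom_C, ← mul_assoc, ← map_mul, mul_inv_cancel₀ w0]
      · simp only [RingHom.comp_apply, RingHom.coe_coe, θs, RingHom.id_apply]
        simp [θ', algHom_C, θA]
  have t2 : (θ : MvPolynomial (Fin 5) ℂ →+* Polynomial AA).comp θ' = RingHom.id _ := by
    apply Polynomial.ringHom_ext'
    · apply MvPolynomial.ringHom_ext
      · intro c; simp [θ', θC, algHom_C]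
      · intro j
        simp only [RingHom.comp_apply, RingHom.coe_coe, RingHom.id_apply, θ',
          Polynomial.coe_eval₂RingHom, Polynomial.eval₂_C, θA, aeval_X]
        rw [map_sub, map_mul, θT, θs, θC]
        ring
    · simp only [RingHom.comp_apply, RingHom.coe_coe, RingHom.id_apply, θ',
        Polynomial.coe_eval₂RingHom, Polynomial.eval₂_X]
      exact θT
  have t3 : (al π t).comp (θ : MvPolynomial (Fin 5) ℂ →+* Polynomial AA) =
      (α : MvPolynomial (Fin 5) ℂ →+* BB) := by
    apply MvPolynomial.ringHom_ext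
    · intro c; simp [θC, algHom_C]
    · intro j
      refine Fin.cases ?_ (fun j => ?_) j
      · simp only [RingHom.comp_apply, RingHom.coe_coe, θ0]
        rw [map_mul, al_C, al_X, algHom_C, algebraMap_eq, ← mul_assoc, ← map_mul,
          mul_inv_cancel₀ w0, map_one, one_mul]
      · simp only [RingHom.comp_apply, RingHom.coe_coe, θs]
        simp [algHom_C, π]
  have t3' : ∀ r, al π t (θ r) = α r := fun r => RingHom.congr_fun t3 r
  have hsurj : Function.Surjective (al π t) := fun x => by
    obtain ⟨r, hr⟩ := hα x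
    exact ⟨θ r, by rw [t3', hr]⟩
  obtain ⟨d1, d2⟩ := top_coeff l
    (fun j => by
      refine Fin.cases ?_ (fun j => ?_) j
      · exact (Polynomial.natDegree_C_mul_le _ _).trans Polynomial.natDegree_X_le
      · exact Polynomial.natDegree_linear_le)
    w (fun j => by
      refine Fin.cases ?_ (fun j => ?_) j
      · simp [l]
      · simp [l, Polynomial.coeff_C]) F
  have hfin : (π : AA →+* BB).Finite := by
    refine finite_of_monic π t hsurj
      (Polynomial.C (C (eval w (homogeneousComponent F.totalDegree F))⁻¹) * θ F) ?_ ?_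
    · apply Polynomial.monic_of_natDegree_le_of_coeff_eq_one F.totalDegree
      · exact (Polynomial.natDegree_C_mul_le _ _).trans d1
      · rw [Polynomial.coeff_C_mul, d2, ← map_mul, inv_mul_cancel₀ hn, map_one]
    · rw [map_mul, t3', RingHom.mem_ker.1 hF, mul_zero]
  obtain ⟨f, hf⟩ := geom t (fun j => α (X j.succ)) (fun j => w j.succ) D
    (fun i j => by simp [w, b, hD]) ((c1 0).const_mul _ Dw0) (fun j => c1 _)
    (fun k => by
      have : pderiv k t = C (w 0)⁻¹ * pderiv k (α (X 0)) := by simp [t]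
      rw [this]
      exact (c2 0 k).const_mul _ Dw0)
    (fun j k => c2 _ k) π (fun j => by simp [π]) hsurj hfin
  refine transfer (θ : MvPolynomial (Fin 5) ℂ →+* Polynomial AA) θ'
    (fun r => RingHom.congr_fun t1 r) (fun r => RingHom.congr_fun t2 r) _ _ (fun r => ?_) f hf
  rw [RingHom.mem_ker, RingHom.mem_ker, RingHom.coe_coe, t3']

end Pool.Agent.H798Z.CI
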